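import Mathlib

/-!
# Logarithmic potentials of complex measures on the unit circle
-/

set_option autoImplicit false

open Complex Metric Set Filter Topology MeasureTheory

namespace Pool.Agent.H46KC

/-- the logarithmic potential in the disc -/
noncomputable def pot (ν : Measure ℂ) (w : ℂ → ℂ) (v : ℂ) : ℂ :=
  ∫ ζ, w ζ * Complex.log (1 - ζ * v) ∂ν

section
variable {ζ v : ℂ}

theorem one_sub_re_pos (hζ : ‖ζ‖ = 1) (hv : ‖v‖ < 1) : 0 < (1 - ζ * v).re := by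
  have h1 : ‖ζ * v‖ < 1 := by rw [norm_mul, hζ, one_mul]; exact hv
  have h2 := Complex.re_le_norm (ζ * v)
  rw [sub_re, one_re]
  linarith

theorem arg_le {x : ℂ} (hx : 0 < x.re) : |x.arg| ≤ Real.pi / 2 :=
  (Complex.abs_arg_lt_pi_div_two_iff.2 (Or.inl hx)).le

theorem le_norm_one_sub (hζ : ‖ζ‖ = 1) (v : ℂ) : 1 - ‖v‖ ≤ ‖1 - ζ * v‖ := by
  have h1 : ‖ζ * v‖ = ‖v‖ := by rw [norm_mul, hζ, one_mul]
  have h2 := norm_sub_norm_le (1 : ℂ) (ζ * v)
  rw [norm_one, h1] at h2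
  exact h2

theorem norm_one_sub_le (hζ : ‖ζ‖ = 1) (hv : ‖v‖ < 1) : ‖1 - ζ * v‖ ≤ 2 := by
  have h1 : ‖ζ * v‖ = ‖v‖ := by rw [norm_mul, hζ, one_mul]
  have h2 := norm_sub_le (1 : ℂ) (ζ * v)
  rw [norm_one, h1] at h2
  linarith

theorem log_bound (hζ : ‖ζ‖ = 1) (hv : ‖v‖ < 1) :
    ‖Complex.log (1 - ζ * v)‖ ≤ |Real.log (1 - ‖v‖)| + Real.log 2 + Real.pi / 2 := by
  have h1 := le_norm_one_sub hζ v
  have h2 := norm_one_sub_le hζ hv
  have h0 : 0 < 1 - ‖v‖ := by linarith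
  have h3 : |Real.log ‖1 - ζ * v‖| ≤ |Real.log (1 - ‖v‖)| + Real.log 2 := by
    rw [abs_le]
    have h4 := Real.log_le_log h0 h1
    have h5 := Real.log_le_log (by linarith) h2
    have h6 := neg_abs_le (Real.log (1 - ‖v‖))
    have h7 := abs_nonneg (Real.log (1 - ‖v‖))
    have h8 : 0 ≤ Real.log 2 := Real.log_nonneg (by norm_num)
    constructor <;> linarith
  refine (Complex.norm_le_abs_re_add_abs_im _).trans ?_
  rw [Complex.log_re, Complex.log_im]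
  exact add_le_add h3 (arg_le (one_sub_re_pos hζ hv))

/-- two logarithms -/
theorem log_sub_le (hζ : ‖ζ‖ = 1) {p : ℂ} (hv : ‖v‖ < 1) (hp : ‖p‖ < 1) {K : ℝ}
    (h1 : ‖v - p‖ ≤ K * ‖1 - ζ * v‖) (h2 : ‖v - p‖ ≤ K * ‖1 - ζ * p‖) :
    ‖Complex.log (1 - ζ * v) - Complex.log (1 - ζ * p)‖ ≤ Real.log (1 + K) + Real.pi := by
  have a0 : 0 < ‖1 - ζ * v‖ := lt_of_lt_of_le (by linarith) (le_norm_one_sub hζ v)
  have b0 : 0 < ‖1 - ζ * p‖ := lt_of_lt_of_le (by linarith) (le_norm_one_sub hζ p)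
  have hK : 0 ≤ K := by
    by_contra hcon
    push Not at hcon
    have := norm_nonneg (v - p)
    nlinarith
  have e0 : ‖(1 - ζ * v) - (1 - ζ * p)‖ = ‖v - p‖ := by
    have : (1 - ζ * v) - (1 - ζ * p) = -(ζ * (v - p)) := by ring
    rw [this, norm_neg, norm_mul, hζ, one_mul]
  have e1 : ‖1 - ζ * v‖ ≤ (1 + K) * ‖1 - ζ * p‖ := by
    have := norm_sub_norm_le (1 - ζ * v) (1 - ζ * p)
    rw [e0] at this
    linarith
  have e2 : ‖1 - ζ * p‖ ≤ (1 + K) * ‖1 - ζ * v‖ := by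
    have := norm_sub_norm_le (1 - ζ * p) (1 - ζ * v)
    rw [norm_sub_rev (1 - ζ * p) (1 - ζ * v), e0] at this
    linarith
  have e3 := Real.log_le_log a0 e1
  have e4 := Real.log_le_log b0 e2
  rw [Real.log_mul (by linarith) b0.ne'] at e3
  rw [Real.log_mul (by linarith) a0.ne'] at e4
  refine (Complex.norm_le_abs_re_add_abs_im _).trans ?_
  rw [sub_re, sub_im, Complex.log_re, Complex.log_im, Complex.log_re, Complex.log_im]
  have e5 : |Real.log ‖1 - ζ * v‖ - Real.log ‖1 - ζ * p‖| ≤ Real.log (1 + K) := by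
    rw [abs_le]
    constructor <;> linarith
  have e6 : |(1 - ζ * v).arg - (1 - ζ * p).arg| ≤ Real.pi := by
    have f1 := abs_le.mp (arg_le (one_sub_re_pos hζ hv))
    have f2 := abs_le.mp (arg_le (one_sub_re_pos hζ hp))
    rw [abs_le]
    constructor <;> linarith [f1.1, f1.2, f2.1, f2.2]
  exact add_le_add e5 e6

end

section
variable {ν : Measure ℂ} [IsFiniteMeasure ν] {w : ℂ → ℂ} {B : ℝ}

theorem meas_int (hw : Measurable w) (v : ℂ) :
    Measurable fun ζ => w ζ * Complex.log (1 - ζ * v) :=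
  hw.mul (Complex.measurable_log.comp (by fun_prop))

theorem int_pot (hν : ∀ᵐ ζ ∂ν, ‖ζ‖ = 1) (hw : Measurable w) (hB : ∀ ζ, ‖w ζ‖ ≤ B) {v : ℂ}
    (hv : ‖v‖ < 1) : Integrable (fun ζ => w ζ * Complex.log (1 - ζ * v)) ν := by
  have hB0 : 0 ≤ B := (norm_nonneg _).trans (hB 0)
  apply Integrable.of_bound (meas_int hw v).aestronglyMeasurable
    (B * (|Real.log (1 - ‖v‖)| + Real.log 2 + Real.pi / 2))
  filter_upwards [hν] with ζ hζ
  rw [norm_mul]
  exact mul_le_mul (hB ζ) (log_bound hζ hv) (norm_nonneg _) hB0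

theorem pot_diff (hν : ∀ᵐ ζ ∂ν, ‖ζ‖ = 1) (hw : Measurable w) (hB : ∀ ζ, ‖w ζ‖ ≤ B) :
    DifferentiableOn ℂ (pot ν w) (ball 0 1) := by
  have hB0 : 0 ≤ B := (norm_nonneg _).trans (hB 0)
  intro v₀ hv₀
  rw [mem_ball_zero_iff] at hv₀
  set δ : ℝ := (1 - ‖v₀‖) / 2 with hδ
  have hδ0 : 0 < δ := by rw [hδ]; linarith
  have hball : ∀ v ∈ ball v₀ δ, ‖v‖ < 1 - δ := by
    intro v hv
    rw [mem_ball_iff_norm] at hv
    have : ‖v‖ ≤ ‖v - v₀‖ + ‖v₀‖ := by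
      have e : v = (v - v₀) + v₀ := by ring
      calc ‖v‖ = ‖(v - v₀) + v₀‖ := by rw [← e]
        _ ≤ _ := norm_add_le _ _
    rw [hδ] at hv ⊢
    linarith
  have key := hasDerivAt_integral_of_dominated_loc_of_deriv_le
    (F := fun v ζ => w ζ * Complex.log (1 - ζ * v)) (F' := fun v ζ => w ζ * (-ζ / (1 - ζ * v)))
    (μ := ν) (x₀ := v₀) (bound := fun _ => B * (1 / δ)) (ball_mem_nhds v₀ hδ0) ?_ ?_ ?_ ?_ ?_ ?_
  · exact key.2.differentiableAt.differentiableWithinAt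
  · filter_upwards with v
    exact (meas_int hw v).aestronglyMeasurable
  · exact int_pot hν hw hB hv₀
  · apply Measurable.aestronglyMeasurable
    exact hw.mul (by fun_prop)
  · filter_upwards [hν] with ζ hζ v hv
    have h1 := hball v hv
    have h2 := le_norm_one_sub hζ v
    rw [norm_mul, norm_div, norm_neg, hζ]
    apply mul_le_mul (hB ζ) _ (by positivity) hB0
    apply one_div_le_one_div_of_le hδ0
    linarith
  · exact integrable_const _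
  · filter_upwards [hν] with ζ hζ v hv
    have h1 := hball v hv
    have h2 : HasDerivAt (fun v : ℂ => 1 - ζ * v) (-ζ) v := by
      simpa using ((hasDerivAt_id v).const_mul ζ).const_sub 1
    exact (h2.clog (Or.inl (one_sub_re_pos hζ (by linarith)))).const_mul (w ζ)

omit [IsFiniteMeasure ν] in
/-- the real part of an integral -/
theorem re_int {f : ℂ → ℂ} (hf : Integrable f ν) : (∫ ζ, f ζ ∂ν).re = ∫ ζ, (f ζ).re ∂ν :=
  (Complex.reCLM.integral_comp_comm hf).symm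

omit [IsFiniteMeasure ν] in
theorem im_int {f : ℂ → ℂ} (hf : Integrable f ν) : (∫ ζ, f ζ ∂ν).im = ∫ ζ, (f ζ).im ∂ν :=
  (Complex.imCLM.integral_comp_comm hf).symm

/-- the imaginary part of a potential with a real weight -/
theorem pot_im (hν : ∀ᵐ ζ ∂ν, ‖ζ‖ = 1) {a : ℂ → ℝ} (ha : Measurable a) (hB : ∀ ζ, |a ζ| ≤ B)
    {v : ℂ} (hv : ‖v‖ < 1) :
    |(pot ν (fun ζ => (a ζ : ℂ)) v).im| ≤ B * (Real.pi / 2) * ν.real univ := by
  have hB0 : 0 ≤ B := (abs_nonneg _).trans (hB 0)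
  have hpi := Real.pi_pos
  have ha' : Measurable fun ζ => (a ζ : ℂ) := Complex.measurable_ofReal.comp ha
  have h1 := int_pot hν ha' (fun ζ => by rw [Complex.norm_real]; exact hB ζ) hv
  unfold pot
  rw [im_int h1, ← Real.norm_eq_abs]
  apply norm_integral_le_of_norm_le_const
  filter_upwards [hν] with ζ hζ
  rw [Complex.im_ofReal_mul, Complex.log_im, Real.norm_eq_abs, abs_mul]
  exact mul_le_mul (hB ζ) (arg_le (one_sub_re_pos hζ hv)) (abs_nonneg _) hB0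

/-- a complex weight against its real part -/
theorem pot_near (hν : ∀ᵐ ζ ∂ν, ‖ζ‖ = 1) (hw : Measurable w) (hB : ∀ ζ, ‖w ζ‖ ≤ 1) (τ : ℂ)
    {v : ℂ} (hv : ‖v‖ < 1) :
    |(τ * pot ν w v).re - (pot ν (fun ζ => (((τ * w ζ).re : ℝ) : ℂ)) v).re| ≤
      ‖τ‖ * (Real.pi / 2) * ν.real univ := by
  have hpi := Real.pi_pos
  have ha : Measurable fun ζ => (((τ * w ζ).re : ℝ) : ℂ) :=
    Complex.measurable_ofReal.comp (Complex.measurable_re.comp (hw.const_mul τ))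
  have hτw : ∀ ζ, ‖τ * w ζ‖ ≤ ‖τ‖ := by
    intro ζ
    rw [norm_mul]
    exact mul_le_of_le_one_right (norm_nonneg _) (hB ζ)
  have h1 := int_pot hν ha (B := ‖τ‖) (fun ζ => by
    rw [Complex.norm_real]
    exact (Complex.abs_re_le_norm _).trans (hτw ζ)) hv
  have h2 := int_pot hν (hw.const_mul τ) (B := ‖τ‖) hτw hv
  have h3 : τ * pot ν w v = ∫ ζ, (τ * w ζ) * Complex.log (1 - ζ * v) ∂ν := by
    unfold pot
    rw [← integral_const_mul]
    congr 1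
    funext ζ
    ring
  have h4 : (τ * pot ν w v).re - (pot ν (fun ζ => (((τ * w ζ).re : ℝ) : ℂ)) v).re =
      ∫ ζ, ((τ * w ζ) * Complex.log (1 - ζ * v) -
        (((τ * w ζ).re : ℝ) : ℂ) * Complex.log (1 - ζ * v)).re ∂ν := by
    rw [h3]
    unfold pot
    rw [← sub_re, ← integral_sub h2 h1]
    exact re_int (h2.sub h1)
  rw [h4, ← Real.norm_eq_abs]
  apply norm_integral_le_of_norm_le_const
  filter_upwards [hν] with ζ hζ
  have h5 : ((τ * w ζ) * Complex.log (1 - ζ * v) -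
        (((τ * w ζ).re : ℝ) : ℂ) * Complex.log (1 - ζ * v)).re =
      -((τ * w ζ).im * (1 - ζ * v).arg) := by
    rw [← Complex.log_im]
    simp only [sub_re, mul_re, ofReal_re, ofReal_im]
    ring
  rw [h5, norm_neg, Real.norm_eq_abs, abs_mul]
  exact mul_le_mul ((Complex.abs_im_le_norm _).trans (hτw ζ)) (arg_le (one_sub_re_pos hζ hv))
    (abs_nonneg _) (norm_nonneg _)

/-- the far part of a potential -/
theorem pot_far (hν : ∀ᵐ ζ ∂ν, ‖ζ‖ = 1) (hw : Measurable w) (hB : ∀ ζ, ‖w ζ‖ ≤ 1) {v p : ℂ}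
    (hv : ‖v‖ < 1) (hp : ‖p‖ < 1) {K : ℝ}
    (h : ∀ᵐ ζ ∂ν, ‖v - p‖ ≤ K * ‖1 - ζ * v‖ ∧ ‖v - p‖ ≤ K * ‖1 - ζ * p‖) :
    ‖pot ν w v - pot ν w p‖ ≤ (Real.log (1 + K) + Real.pi) * ν.real univ := by
  unfold pot
  rw [← integral_sub (int_pot hν hw hB hv) (int_pot hν hw hB hp)]
  apply norm_integral_le_of_norm_le_const
  filter_upwards [hν, h] with ζ hζ h1
  rw [← mul_sub, norm_mul]
  have h2 := log_sub_le hζ hv hp h1.1 h1.2
  calc ‖w ζ‖ * ‖Complex.log (1 - ζ * v) - Complex.log (1 - ζ * p)‖ ≤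
      1 * (Real.log (1 + K) + Real.pi) := mul_le_mul (hB ζ) h2 (norm_nonneg _) one_pos.le
    _ = _ := one_mul _

theorem pot_split (hν : ∀ᵐ ζ ∂ν, ‖ζ‖ = 1) (hw : Measurable w) (hB : ∀ ζ, ‖w ζ‖ ≤ 1) {v : ℂ}
    (hv : ‖v‖ < 1) {N : Set ℂ} (hN : MeasurableSet N) :
    pot ν w v = pot (ν.restrict N) w v + pot (ν.restrict Nᶜ) w v :=
  (integral_add_compl hN (int_pot hν hw hB hv)).symm

end

end Pool.Agent.H46KC
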