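import Mathlib
import Pool.Agent.H46KC.Pot

/-!
# The local estimate on an arc
-/

set_option autoImplicit false

open Complex Metric Set Filter Topology MeasureTheory

namespace Pool.Agent.H46KC

/-- Harnack's inequality on an arc -/
theorem arc_le {Φ : ℂ → ℂ} (hΦ : DifferentiableOn ℂ Φ (ball 0 1)) (hpos : ∀ v ∈ ball (0 : ℂ) 1, 0 ≤ (Φ v).re)
    {r : ℝ} (hr : 0 < r) (hr1 : r < 1) {p : ℂ} (hp : ‖p‖ < r) {κ θ₀ θ₁ : ℝ} (hκ : 0 < κ)
    (h0 : 0 ≤ θ₀) (h01 : θ₀ ≤ θ₁) (h1 : θ₁ ≤ 2 * Real.pi)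
    (hk : ∀ θ ∈ Icc θ₀ θ₁, κ ≤ poissonKernel 0 p (circleMap 0 r θ)) :
    ∫ θ in θ₀..θ₁, (Φ (circleMap 0 r θ)).re ≤ 2 * Real.pi / κ * (Φ p).re := by
  have hpi := Real.pi_pos
  have hpb : p ∈ ball (0 : ℂ) r := by rwa [mem_ball_zero_iff]
  have hsub : closedBall (0 : ℂ) r ⊆ ball 0 1 := closedBall_subset_ball hr1
  have hd : DiffContOnCl ℂ Φ (ball 0 r) := hΦ.diffContOnCl_ball hsub
  have hmem : ∀ θ : ℝ, circleMap 0 r θ ∈ ball (0 : ℂ) 1 := fun θ =>
    hsub (circleMap_mem_closedBall 0 hr.le θ)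
  have hne : ∀ θ : ℝ, circleMap 0 r θ - 0 - (p - 0) ≠ 0 := by
    intro θ h
    rw [sub_zero, sub_zero, sub_eq_zero] at h
    rw [← h, norm_circleMap_zero, abs_of_pos hr] at hp
    exact lt_irrefl _ hp
  have hPc : Continuous fun θ : ℝ => poissonKernel 0 p (circleMap 0 r θ) := by
    unfold poissonKernel
    apply Continuous.div (by fun_prop) (by fun_prop)
    intro θ
    exact pow_ne_zero _ (norm_ne_zero_iff.mpr (hne θ))
  have hΦc : Continuous fun θ : ℝ => Φ (circleMap 0 r θ) := by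
    rw [← continuousOn_univ]
    exact hΦ.continuousOn.comp (continuous_circleMap 0 r).continuousOn fun θ _ => hmem θ
  have hP0 : ∀ θ : ℝ, 0 ≤ poissonKernel 0 p (circleMap 0 r θ) := by
    intro θ
    unfold poissonKernel
    apply div_nonneg _ (sq_nonneg _)
    rw [sub_zero, sub_zero, norm_circleMap_zero, abs_of_pos hr]
    have := norm_nonneg p
    nlinarith
  have h2 := hd.circleAverage_poissonKernel_smul hpb
  have h3 : (Φ p).re = (2 * Real.pi)⁻¹ * ∫ θ in (0:ℝ)..(2 * Real.pi),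
      poissonKernel 0 p (circleMap 0 r θ) * (Φ (circleMap 0 r θ)).re := by
    rw [← h2]
    unfold Real.circleAverage
    rw [Complex.real_smul, Complex.re_ofReal_mul]
    congr 1
    have h4 : IntervalIntegrable (fun θ : ℝ => (poissonKernel 0 p • Φ) (circleMap 0 r θ)) volume
        0 (2 * Real.pi) := by
      apply Continuous.intervalIntegrable
      exact hPc.smul hΦc
    have h5 := Complex.reCLM.intervalIntegral_comp_comm h4
    rw [Complex.reCLM_apply] at h5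
    rw [← h5]
    apply intervalIntegral.integral_congr
    intro θ _
    simp only [Complex.reCLM_apply, Pi.smul_apply', Complex.real_smul, Complex.re_ofReal_mul]
  have hprod : Continuous fun θ : ℝ =>
      poissonKernel 0 p (circleMap 0 r θ) * (Φ (circleMap 0 r θ)).re :=
    hPc.mul (Complex.continuous_re.comp hΦc)
  have h4 : κ * ∫ θ in θ₀..θ₁, (Φ (circleMap 0 r θ)).re ≤
      ∫ θ in (0:ℝ)..(2 * Real.pi), poissonKernel 0 p (circleMap 0 r θ) * (Φ (circleMap 0 r θ)).re := by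
    calc κ * ∫ θ in θ₀..θ₁, (Φ (circleMap 0 r θ)).re =
        ∫ θ in θ₀..θ₁, κ * (Φ (circleMap 0 r θ)).re := by
          rw [intervalIntegral.integral_const_mul]
      _ ≤ ∫ θ in θ₀..θ₁, poissonKernel 0 p (circleMap 0 r θ) * (Φ (circleMap 0 r θ)).re := by
          apply intervalIntegral.integral_mono_on h01
          · exact (continuous_const.mul (Complex.continuous_re.comp hΦc)).intervalIntegrable _ _
          · exact hprod.intervalIntegrable _ _
          · intro θ hθ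
            exact mul_le_mul_of_nonneg_right (hk θ hθ) (hpos _ (hmem θ))
      _ ≤ _ := by
          apply intervalIntegral.integral_mono_interval h0 h01 h1
          · filter_upwards with θ
            exact mul_nonneg (hP0 θ) (hpos _ (hmem θ))
          · exact hprod.intervalIntegrable _ _
  rw [h3]
  have h5 : ∫ θ in θ₀..θ₁, (Φ (circleMap 0 r θ)).re ≤ κ⁻¹ *
      ∫ θ in (0:ℝ)..(2 * Real.pi), poissonKernel 0 p (circleMap 0 r θ) * (Φ (circleMap 0 r θ)).re := by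
    rw [inv_mul_eq_div, le_div_iff₀ hκ, mul_comm]
    exact h4
  refine h5.trans (le_of_eq ?_)
  field_simp

/-- **The local estimate.** -/
theorem local_le {ν : Measure ℂ} [IsFiniteMeasure ν] {w : ℂ → ℂ} (hν : ∀ᵐ ζ ∂ν, ‖ζ‖ = 1)
    (hw : Measurable w) (hw1 : ∀ ζ, ‖w ζ‖ ≤ 1) {H : ℂ → ℂ} (hH : DifferentiableOn ℂ H (ball 0 1))
    {β γ : ℝ} (hβ : 0 ≤ β)
    (hcl : ∀ v ∈ ball (0 : ℂ) 1, |(H v - pot ν w v).im - γ| ≤ β * (Real.pi / 2))
    {r : ℝ} (hr : 0 < r) (hr1 : r < 1) {p : ℂ} (hp : ‖p‖ < r) {κ θ₀ θ₁ : ℝ} (hκ : 0 < κ)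
    (h0 : 0 ≤ θ₀) (h01 : θ₀ ≤ θ₁) (h1 : θ₁ ≤ 2 * Real.pi)
    (hk : ∀ θ ∈ Icc θ₀ θ₁, κ ≤ poissonKernel 0 p (circleMap 0 r θ))
    {N : Set ℂ} (hN : MeasurableSet N) {K : ℝ} (hK : 0 ≤ K)
    (hfar : ∀ ζ ∈ Nᶜ, ‖ζ‖ = 1 → ∀ θ ∈ Icc θ₀ θ₁,
      ‖circleMap 0 r θ - p‖ ≤ K * ‖1 - ζ * circleMap 0 r θ‖ ∧
      ‖circleMap 0 r θ - p‖ ≤ K * ‖1 - ζ * p‖)
    {τ : ℂ} {η : ℝ} (hη : η < Real.pi / 2)
    (hτ : ‖τ‖ * (β * (Real.pi / 2)) + ‖τ‖ * (Real.pi / 2) * ν.real N ≤ η) :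
    ∫ θ in θ₀..θ₁, ‖Complex.exp (τ * H (circleMap 0 r θ))‖ ≤
      2 * Real.pi / κ * (1 / Real.cos η) *
        Real.exp (2 * η + ‖τ‖ * ((Real.log (1 + K) + Real.pi) * ν.real univ)) *
        ‖Complex.exp (τ * H p)‖ := by
  have hpi := Real.pi_pos
  have hsub : closedBall (0 : ℂ) r ⊆ ball 0 1 := closedBall_subset_ball hr1
  have hmem : ∀ θ : ℝ, circleMap 0 r θ ∈ ball (0 : ℂ) 1 := fun θ =>
    hsub (circleMap_mem_closedBall 0 hr.le θ)
  have hp1 : ‖p‖ < 1 := hp.trans hr1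
  have hpb : p ∈ ball (0 : ℂ) 1 := by rwa [mem_ball_zero_iff]
  have hτ0 := norm_nonneg τ
  have hνN : 0 ≤ ν.real N := measureReal_nonneg
  have hη0 : 0 ≤ η := by
    refine le_trans ?_ hτ
    positivity
  have hcos : 0 < Real.cos η := Real.cos_pos_of_mem_Ioo ⟨by linarith, hη⟩
  have hνN' : ∀ᵐ ζ ∂(ν.restrict N), ‖ζ‖ = 1 := ae_restrict_of_ae hν
  have hνF : ∀ᵐ ζ ∂(ν.restrict Nᶜ), ‖ζ‖ = 1 := ae_restrict_of_ae hν
  have ha : Measurable fun ζ => (τ * w ζ).re := Complex.measurable_re.comp (hw.const_mul τ)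
  have ha' : Measurable fun ζ => (((τ * w ζ).re : ℝ) : ℂ) := Complex.measurable_ofReal.comp ha
  have hτw : ∀ ζ, |(τ * w ζ).re| ≤ ‖τ‖ := by
    intro ζ
    refine (Complex.abs_re_le_norm _).trans ?_
    rw [norm_mul]
    exact mul_le_of_le_one_right hτ0 (hw1 ζ)
  have hτw' : ∀ ζ, ‖(((τ * w ζ).re : ℝ) : ℂ)‖ ≤ ‖τ‖ := by
    intro ζ
    rw [Complex.norm_real]
    exact hτw ζ
  -- the function with positive real part
  set A : ℂ → ℂ := pot (ν.restrict N) (fun ζ => (((τ * w ζ).re : ℝ) : ℂ)) with hA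
  set l : ℂ → ℂ := fun v => H v - pot ν w v - γ * I with hl
  set Φ : ℂ → ℂ := fun v => Complex.exp (A v + (τ.re : ℂ) * l v) with hΦ
  have hAd : DifferentiableOn ℂ A (ball 0 1) := pot_diff hνN' ha' hτw'
  have hld : DifferentiableOn ℂ l (ball 0 1) := (hH.sub (pot_diff hν hw hw1)).sub_const _
  have hΦd : DifferentiableOn ℂ Φ (ball 0 1) := (hAd.add (hld.const_mul _)).cexp
  have hlim : ∀ v ∈ ball (0 : ℂ) 1, |(l v).im| ≤ β * (Real.pi / 2) := by
    intro v hv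
    have := hcl v hv
    simp only [hl]
    rw [sub_im, mul_im, ofReal_re, I_im, ofReal_im, I_re]
    simpa using this
  have hAim : ∀ v ∈ ball (0 : ℂ) 1, |(A v).im| ≤ ‖τ‖ * (Real.pi / 2) * ν.real N := by
    intro v hv
    have := pot_im hνN' ha hτw (mem_ball_zero_iff.mp hv)
    rwa [measureReal_restrict_apply_univ] at this
  have him : ∀ v ∈ ball (0 : ℂ) 1, |(A v + (τ.re : ℂ) * l v).im| ≤ η := by
    intro v hv
    rw [add_im, im_ofReal_mul]
    refine (abs_add_le _ _).trans ?_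
    rw [abs_mul]
    have e1 := hlim v hv
    have e2 := hAim v hv
    have e3 : |τ.re| * |(l v).im| ≤ ‖τ‖ * (β * (Real.pi / 2)) :=
      mul_le_mul (Complex.abs_re_le_norm τ) e1 (abs_nonneg _) hτ0
    linarith
  have hΦre : ∀ v ∈ ball (0 : ℂ) 1, Real.cos η * ‖Φ v‖ ≤ (Φ v).re := by
    intro v hv
    simp only [hΦ]
    rw [Complex.norm_exp, Complex.exp_re, mul_comm]
    apply mul_le_mul_of_nonneg_left _ (Real.exp_pos _).le
    rw [← Real.cos_abs (A v + (τ.re : ℂ) * l v).im]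
    exact Real.cos_le_cos_of_nonneg_of_le_pi (abs_nonneg _) (by linarith) (him v hv)
  have hΦ0 : ∀ v ∈ ball (0 : ℂ) 1, 0 ≤ (Φ v).re := fun v hv =>
    le_trans (mul_nonneg hcos.le (norm_nonneg _)) (hΦre v hv)
  have hmain := arc_le hΦd hΦ0 hr hr1 hp hκ h0 h01 h1 hk
  -- comparison
  have hsplit : ∀ v ∈ ball (0 : ℂ) 1, τ * H v = τ * l v + τ * (γ * I) +
      τ * pot (ν.restrict N) w v + τ * pot (ν.restrict Nᶜ) w v := by
    intro v hv
    have := pot_split hν hw hw1 (mem_ball_zero_iff.mp hv) hN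
    simp only [hl]
    rw [this]
    ring
  have hnear : ∀ v ∈ ball (0 : ℂ) 1, |(τ * l v + τ * pot (ν.restrict N) w v).re -
      (A v + (τ.re : ℂ) * l v).re| ≤ η := by
    intro v hv
    have e1 := pot_near hνN' hw hw1 τ (mem_ball_zero_iff.mp hv)
    rw [measureReal_restrict_apply_univ] at e1
    have e2 := hlim v hv
    have e3 : |τ.im| * |(l v).im| ≤ ‖τ‖ * (β * (Real.pi / 2)) :=
      mul_le_mul (Complex.abs_im_le_norm τ) e2 (abs_nonneg _) hτ0
    have e4 : (τ * l v + τ * pot (ν.restrict N) w v).re - (A v + (τ.re : ℂ) * l v).re =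
        -(τ.im * (l v).im) + ((τ * pot (ν.restrict N) w v).re - (A v).re) := by
      rw [add_re, add_re, mul_re τ (l v), re_ofReal_mul]
      ring
    rw [e4]
    refine (abs_add_le _ _).trans ?_
    rw [abs_neg, abs_mul]
    linarith
  have hcomp : ∀ θ ∈ Icc θ₀ θ₁, ‖Complex.exp (τ * H (circleMap 0 r θ))‖ * ‖Φ p‖ ≤
      Real.exp (2 * η + ‖τ‖ * ((Real.log (1 + K) + Real.pi) * ν.real univ)) *
        ‖Complex.exp (τ * H p)‖ * ‖Φ (circleMap 0 r θ)‖ := by
    intro θ hθ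
    set v := circleMap 0 r θ with hv
    have hvb : v ∈ ball (0 : ℂ) 1 := hmem θ
    have e1 := hnear v hvb
    have e2 := hnear p hpb
    have e3 := pot_far (v := v) (p := p) (K := K) hνF hw hw1 (mem_ball_zero_iff.mp hvb) hp1 (by
      have h5 : ∀ᵐ ζ ∂(ν.restrict Nᶜ), ζ ∈ Nᶜ := ae_restrict_mem hN.compl
      filter_upwards [hνF, h5] with ζ hζ hζN
      exact hfar ζ hζN hζ θ hθ)
    rw [measureReal_restrict_apply_univ] at e3
    have e4 : ν.real Nᶜ ≤ ν.real univ := measureReal_mono (subset_univ _)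
    have hlogK : 0 ≤ Real.log (1 + K) := Real.log_nonneg (by linarith)
    have e5 : (τ * pot (ν.restrict Nᶜ) w v).re - (τ * pot (ν.restrict Nᶜ) w p).re ≤
        ‖τ‖ * ((Real.log (1 + K) + Real.pi) * ν.real univ) := by
      rw [← sub_re, ← mul_sub]
      refine (Complex.re_le_norm _).trans ?_
      rw [norm_mul]
      apply mul_le_mul_of_nonneg_left _ hτ0
      refine e3.trans ?_
      gcongr
    simp only [hΦ]
    rw [Complex.norm_exp, Complex.norm_exp, Complex.norm_exp, Complex.norm_exp, ← Real.exp_add,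
      ← Real.exp_add, ← Real.exp_add, Real.exp_le_exp, hsplit v hvb, hsplit p hpb]
    rw [add_re (τ * l v + τ * (γ * I) + _), add_re (τ * l p + τ * (γ * I) + _)]
    have e6 : ∀ x : ℂ, (τ * l x + τ * (γ * I) + τ * pot (ν.restrict N) w x).re =
        (τ * l x + τ * pot (ν.restrict N) w x).re + (τ * (γ * I)).re := by
      intro x
      simp only [add_re]
      ring
    rw [e6 v, e6 p]
    have f1 := (abs_le.mp e1).2
    have f2 := (abs_le.mp e2).1
    linarith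
  have hΦp : 0 < ‖Φ p‖ := norm_pos_iff.mpr (Complex.exp_ne_zero _)
  have hHc : Continuous fun θ : ℝ => ‖Complex.exp (τ * H (circleMap 0 r θ))‖ := by
    rw [← continuousOn_univ]
    exact (Complex.continuous_exp.comp_continuousOn (continuousOn_const.mul
      (hH.continuousOn.comp (continuous_circleMap 0 r).continuousOn fun θ _ => hmem θ))).norm
  have hΦc : Continuous fun θ : ℝ => Φ (circleMap 0 r θ) := by
    rw [← continuousOn_univ]
    exact hΦd.continuousOn.comp (continuous_circleMap 0 r).continuousOn fun θ _ => hmem θ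
  set E : ℝ := Real.exp (2 * η + ‖τ‖ * ((Real.log (1 + K) + Real.pi) * ν.real univ)) *
        ‖Complex.exp (τ * H p)‖ with hE
  have hE0 : 0 ≤ E := by positivity
  have hI : ∫ θ in θ₀..θ₁, ‖Complex.exp (τ * H (circleMap 0 r θ))‖ ≤
      ∫ θ in θ₀..θ₁, E / ‖Φ p‖ * (1 / Real.cos η) * (Φ (circleMap 0 r θ)).re := by
    apply intervalIntegral.integral_mono_on h01
    · exact hHc.intervalIntegrable _ _
    · exact (continuous_const.mul (Complex.continuous_re.comp hΦc)).intervalIntegrable _ _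
    · intro θ hθ
      have e1 := hcomp θ hθ
      have e2 := hΦre _ (hmem θ)
      have e3 : ‖Φ (circleMap 0 r θ)‖ ≤ 1 / Real.cos η * (Φ (circleMap 0 r θ)).re := by
        rw [one_div_mul_eq_div, le_div_iff₀ hcos, mul_comm]
        exact e2
      have e4 : ‖Complex.exp (τ * H (circleMap 0 r θ))‖ ≤ E * ‖Φ (circleMap 0 r θ)‖ / ‖Φ p‖ := by
        rw [le_div_iff₀ hΦp]
        exact e1
      refine e4.trans ?_
      calc E * ‖Φ (circleMap 0 r θ)‖ / ‖Φ p‖ = E / ‖Φ p‖ * ‖Φ (circleMap 0 r θ)‖ := by ring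
        _ ≤ E / ‖Φ p‖ * (1 / Real.cos η * (Φ (circleMap 0 r θ)).re) :=
          mul_le_mul_of_nonneg_left e3 (by positivity)
        _ = _ := by ring
  refine hI.trans ?_
  rw [intervalIntegral.integral_const_mul]
  have hΦp' : (Φ p).re ≤ ‖Φ p‖ := Complex.re_le_norm _
  calc E / ‖Φ p‖ * (1 / Real.cos η) * ∫ θ in θ₀..θ₁, (Φ (circleMap 0 r θ)).re ≤
      E / ‖Φ p‖ * (1 / Real.cos η) * (2 * Real.pi / κ * (Φ p).re) :=
        mul_le_mul_of_nonneg_left hmain (by positivity)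
    _ ≤ E / ‖Φ p‖ * (1 / Real.cos η) * (2 * Real.pi / κ * ‖Φ p‖) := by gcongr
    _ = 2 * Real.pi / κ * (1 / Real.cos η) * E := by
        field_simp
    _ = _ := by rw [hE]; ring

end Pool.Agent.H46KC
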