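import Mathlib
import Pool.Agent.H46KC.Loc

/-!
# Dyadic arcs
-/

set_option autoImplicit false

open Complex Metric Set Filter Topology MeasureTheory

namespace Pool.Agent.H46KC

/-- the relative length of the arcs -/
noncomputable def uk (k : ℕ) : ℝ := (1 / 2) ^ k

theorem uk_pos (k : ℕ) : 0 < uk k := by unfold uk; positivity

theorem uk_le_one (k : ℕ) : uk k ≤ 1 := by
  unfold uk
  exact pow_le_one₀ (by norm_num) (by norm_num)

theorem uk_succ (k : ℕ) : uk (k + 1) = uk k / 2 := by
  unfold uk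
  rw [pow_succ]
  ring

theorem uk_mul (k : ℕ) : (2 : ℝ) ^ k * uk k = 1 := by
  unfold uk
  rw [← mul_pow]
  norm_num

/-- the endpoints of the arcs -/
noncomputable def th (k j : ℕ) : ℝ := 2 * Real.pi * (j * uk k)

theorem th_two (k j : ℕ) : th (k + 1) (2 * j) = th k j := by
  unfold th
  rw [uk_succ]
  push_cast
  ring

theorem th_mono {k i j : ℕ} (h : i ≤ j) : th k i ≤ th k j := by
  unfold th
  have := Real.pi_pos
  have := uk_pos k
  have h1 : (i : ℝ) ≤ j := by exact_mod_cast h
  gcongr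

theorem th_nonneg (k j : ℕ) : 0 ≤ th k j := by
  unfold th
  have := Real.pi_pos
  have := uk_pos k
  positivity

theorem th_le {k j : ℕ} (h : j ≤ 2 ^ k) : th k j ≤ 2 * Real.pi := by
  have h1 := th_mono (k := k) h
  refine h1.trans (le_of_eq ?_)
  unfold th
  push_cast
  rw [uk_mul, mul_one]

theorem th_succ (k j : ℕ) : th k (j + 1) = th k j + 2 * Real.pi * uk k := by
  unfold th
  push_cast
  ring

/-- the distance of two points of a circle -/
theorem cm_dist {r : ℝ} (hr : 0 ≤ r) (θ φ : ℝ) : ‖circleMap 0 r θ - circleMap 0 r φ‖ ≤ r * |θ - φ| := by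
  have h1 : circleMap 0 r θ - circleMap 0 r φ =
      (r : ℂ) * (Complex.exp (φ * I) * (Complex.exp (I * ((θ - φ : ℝ) : ℂ)) - 1)) := by
    rw [circleMap_zero, circleMap_zero, mul_sub, ← Complex.exp_add]
    have : (φ : ℂ) * I + I * ((θ - φ : ℝ) : ℂ) = θ * I := by push_cast; ring
    rw [this]
    ring
  rw [h1, norm_mul, norm_mul, Complex.norm_exp_ofReal_mul_I, one_mul, Complex.norm_real,
    Real.norm_of_nonneg hr]
  apply mul_le_mul_of_nonneg_left _ hr
  exact Real.norm_exp_I_mul_ofReal_sub_one_le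

section
variable {r : ℝ} {k j : ℕ}

/-- the reference point of an arc -/
noncomputable def pt (r : ℝ) (k j : ℕ) : ℂ := circleMap 0 (r * (1 - uk k / 2)) (th k j)

theorem norm_pt (hr : 0 < r) : ‖pt r k j‖ = r * (1 - uk k / 2) := by
  have h1 := uk_le_one k
  unfold pt
  rw [norm_circleMap_zero, abs_of_nonneg]
  apply mul_nonneg hr.le
  linarith

theorem norm_pt_lt (hr : 0 < r) : ‖pt r k j‖ < r := by
  rw [norm_pt hr]
  have := uk_pos k
  nlinarith

theorem abs_sub_le {θ : ℝ} (hθ : θ ∈ Icc (th k j) (th k (j + 1))) : |θ - th k j| ≤ 2 * Real.pi * uk k := by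
  rw [th_succ] at hθ
  rw [abs_of_nonneg (by linarith [hθ.1])]
  linarith [hθ.2]

theorem dist_pt (hr : 0 < r) {θ : ℝ} (hθ : θ ∈ Icc (th k j) (th k (j + 1))) :
    ‖circleMap 0 r θ - pt r k j‖ ≤ 7 * (r * uk k) := by
  have hu := uk_pos k
  have hu1 := uk_le_one k
  have h1 := cm_dist hr.le θ (th k j)
  have h2 := abs_sub_le hθ
  have h3 : circleMap 0 r (th k j) - pt r k j = ((r * (uk k / 2) : ℝ) : ℂ) * Complex.exp (th k j * I) := by
    unfold pt
    rw [circleMap_zero, circleMap_zero]
    push_cast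
    ring
  have h4 : ‖circleMap 0 r (th k j) - pt r k j‖ = r * (uk k / 2) := by
    rw [h3, norm_mul, Complex.norm_exp_ofReal_mul_I, mul_one, Complex.norm_real,
      Real.norm_of_nonneg (by positivity)]
  have h5 : circleMap 0 r θ - pt r k j = (circleMap 0 r θ - circleMap 0 r (th k j)) +
      (circleMap 0 r (th k j) - pt r k j) := by ring
  rw [h5]
  refine (norm_add_le _ _).trans ?_
  rw [h4]
  have hpi : Real.pi < 3.15 := Real.pi_lt_d2
  have h6 : r * |θ - th k j| ≤ r * (2 * Real.pi * uk k) := mul_le_mul_of_nonneg_left h2 hr.le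
  have h7 : r * (2 * Real.pi * uk k) ≤ 6.3 * (r * uk k) := by
    have : 0 < r * uk k := by positivity
    nlinarith
  have : 0 < r * uk k := by positivity
  linarith

theorem kernel_ge (hr : 0 < r) {θ : ℝ} (hθ : θ ∈ Icc (th k j) (th k (j + 1))) :
    1 / (98 * uk k) ≤ poissonKernel 0 (pt r k j) (circleMap 0 r θ) := by
  have hu := uk_pos k
  have hu1 := uk_le_one k
  have h1 := dist_pt hr hθ
  have hne : 0 < ‖circleMap 0 r θ - pt r k j‖ := by
    rw [norm_pos_iff, sub_ne_zero]
    intro h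
    have h2 := norm_pt_lt (k := k) (j := j) hr
    rw [← h, norm_circleMap_zero, abs_of_pos hr] at h2
    exact lt_irrefl _ h2
  unfold poissonKernel
  rw [sub_zero, sub_zero, norm_circleMap_zero, abs_of_pos hr, norm_pt hr, div_le_div_iff₀ (by positivity)
    (by positivity), one_mul]
  have h2 : ‖circleMap 0 r θ - pt r k j‖ ^ 2 ≤ (7 * (r * uk k)) ^ 2 := by gcongr
  refine h2.trans ?_
  have h3 : r ^ 2 - (r * (1 - uk k / 2)) ^ 2 = r ^ 2 * (uk k - uk k ^ 2 / 4) := by ring
  rw [h3]
  have h4 : (7 * (r * uk k)) ^ 2 = r ^ 2 * uk k * (49 * uk k) := by ring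
  have h5 : r ^ 2 * (uk k - uk k ^ 2 / 4) * (98 * uk k) = r ^ 2 * uk k * (98 * (uk k - uk k ^ 2 / 4)) := by
    ring
  rw [h4, h5]
  apply mul_le_mul_of_nonneg_left _ (by positivity)
  nlinarith

/-- the points near an arc -/
def near (k j : ℕ) : Set ℂ := {ζ | ‖1 - ζ * Complex.exp (th k j * I)‖ ≤ 9 * uk k}

theorem near_meas (k j : ℕ) : MeasurableSet (near k j) :=
  (isClosed_le (by fun_prop) continuous_const).measurableSet

theorem far_le (hr : 1 / 2 ≤ r) (hr1 : r < 1) (hrk : 1 - r ≤ uk k) {ζ : ℂ} (hζ : ζ ∈ (near k j)ᶜ)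
    (hζ1 : ‖ζ‖ = 1) {θ : ℝ} (hθ : θ ∈ Icc (th k j) (th k (j + 1))) :
    ‖circleMap 0 r θ - pt r k j‖ ≤ 28 * ‖1 - ζ * circleMap 0 r θ‖ ∧
    ‖circleMap 0 r θ - pt r k j‖ ≤ 28 * ‖1 - ζ * pt r k j‖ := by
  have hr0 : 0 < r := by linarith
  have hu := uk_pos k
  have hu1 := uk_le_one k
  have hpi : Real.pi < 3.15 := Real.pi_lt_d2
  have h1 := dist_pt hr0 hθ
  have h2 : ‖circleMap 0 r θ - pt r k j‖ ≤ 7 * uk k := by
    refine h1.trans ?_
    nlinarith
  constructor
  · have h3 : 9 * uk k < ‖1 - ζ * Complex.exp (th k j * I)‖ := not_le.mp hζ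
    have h4 : ‖Complex.exp (th k j * I) - circleMap 0 r θ‖ ≤ 2 * Real.pi * uk k + (1 - r) := by
      have e1 : Complex.exp (th k j * I) - circleMap 0 r θ =
          (circleMap 0 1 (th k j) - circleMap 0 1 θ) + ((1 - r : ℝ) : ℂ) * Complex.exp (θ * I) := by
        rw [circleMap_zero, circleMap_zero, circleMap_zero]
        push_cast
        ring
      rw [e1]
      refine (norm_add_le _ _).trans ?_
      rw [norm_mul, Complex.norm_exp_ofReal_mul_I, mul_one, Complex.norm_real,
        Real.norm_of_nonneg (by linarith)]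
      have e2 := cm_dist (zero_le_one) (th k j) θ
      rw [one_mul, abs_sub_comm] at e2
      linarith [abs_sub_le hθ]
    have h5 : ‖1 - ζ * Complex.exp (th k j * I)‖ ≤ ‖1 - ζ * circleMap 0 r θ‖ +
        ‖Complex.exp (th k j * I) - circleMap 0 r θ‖ := by
      have e1 : 1 - ζ * Complex.exp (th k j * I) = (1 - ζ * circleMap 0 r θ) -
          ζ * (Complex.exp (th k j * I) - circleMap 0 r θ) := by ring
      rw [e1]
      refine (norm_sub_le _ _).trans ?_
      rw [norm_mul, hζ1, one_mul]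
    have h6 : 1.7 * uk k ≤ ‖1 - ζ * circleMap 0 r θ‖ := by nlinarith
    linarith
  · have h3 := le_norm_one_sub hζ1 (pt r k j)
    rw [norm_pt hr0] at h3
    have h4 : uk k / 4 ≤ 1 - r * (1 - uk k / 2) := by nlinarith
    linarith

theorem one_sub_sq_ge (hr : 1 / 2 ≤ r) (hr1 : r < 1) : uk k / 4 ≤ 1 - ‖pt r k j‖ ^ 2 := by
  have hu := uk_pos k
  have hu1 := uk_le_one k
  have hr0 : 0 < r := by linarith
  have h1 := norm_pt_lt (k := k) (j := j) hr0
  have h2 := norm_pt (k := k) (j := j) hr0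
  have h3 := norm_nonneg (pt r k j)
  have h4 : uk k / 4 ≤ 1 - ‖pt r k j‖ := by
    rw [h2]
    nlinarith
  nlinarith

end

/-- a set of integers of small diameter -/
theorem card_le_five {S : Finset ℕ} {x : ℝ} (h : ∀ j ∈ S, |(j : ℝ) - x| ≤ 9 / 4) : S.card ≤ 5 := by
  rcases S.eq_empty_or_nonempty with rfl | hne
  · simp
  set m := S.min' hne with hm
  have hmS : m ∈ S := S.min'_mem hne
  have hsub : S ⊆ Finset.Icc m (m + 4) := by
    intro j hj
    rw [Finset.mem_Icc]
    refine ⟨S.min'_le j hj, ?_⟩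
    have h1 := abs_le.mp (h j hj)
    have h2 := abs_le.mp (h m hmS)
    have h3 : (j : ℝ) < m + 5 := by linarith [h1.2, h2.1]
    have h4 : j < m + 5 := by exact_mod_cast h3
    omega
  refine (Finset.card_le_card hsub).trans ?_
  rw [Nat.card_Icc]
  omega

theorem norm_exp_ge {y : ℝ} (hy : |y| ≤ Real.pi) : 2 / Real.pi * |y| ≤ ‖Complex.exp (I * y) - 1‖ := by
  rw [Complex.norm_exp_I_mul_ofReal_sub_one, norm_mul, Real.norm_of_nonneg (by norm_num : (0:ℝ) ≤ 2),
    Real.norm_eq_abs]
  have h1 : |y / 2| ≤ Real.pi / 2 := by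
    rw [abs_div, abs_of_pos (by norm_num : (0:ℝ) < 2)]
    linarith
  have h2 := Real.mul_abs_le_abs_sin h1
  rw [abs_div, abs_of_pos (by norm_num : (0:ℝ) < 2)] at h2
  linarith

/-- a point of the circle is near few arcs -/
theorem count_near {ζ : ℂ} (hζ : ‖ζ‖ = 1) (k : ℕ) [DecidablePred fun j => ζ ∈ near k j] :
    ((Finset.range (2 ^ k)).filter fun j => ζ ∈ near k j).card ≤ 10 := by
  classical
  have hpi := Real.pi_pos
  have hu := uk_pos k
  set a : ℝ := ζ.arg with ha
  have hζe : ζ = Complex.exp (a * I) := by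
    have := Complex.norm_mul_exp_arg_mul_I ζ
    rw [hζ, ofReal_one, one_mul] at this
    exact this.symm
  have ha1 := Complex.neg_pi_lt_arg ζ
  have ha2 := Complex.arg_le_pi ζ
  have hcase : ∀ j ∈ (Finset.range (2 ^ k)).filter (fun j => ζ ∈ near k j),
      |(j : ℝ) - (-a / (2 * Real.pi * uk k))| ≤ 9 / 4 ∨
      |(j : ℝ) - ((2 * Real.pi - a) / (2 * Real.pi * uk k))| ≤ 9 / 4 := by
    intro j hj
    rw [Finset.mem_filter, Finset.mem_range] at hj
    obtain ⟨hj1, hj2⟩ := hj
    have h1 : ‖1 - ζ * Complex.exp (th k j * I)‖ ≤ 9 * uk k := hj2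
    have h2 : ζ * Complex.exp (th k j * I) = Complex.exp (I * ((a + th k j : ℝ) : ℂ)) := by
      conv_lhs => rw [hζe]
      rw [← Complex.exp_add]
      congr 1
      push_cast
      ring
    rw [h2, norm_sub_rev] at h1
    have h3 := th_nonneg k j
    have h4 : th k j ≤ 2 * Real.pi := th_le hj1.le
    have hkey : ∀ x : ℝ, 2 / Real.pi * |x + th k j| ≤ 9 * uk k →
        |(j : ℝ) - (-x / (2 * Real.pi * uk k))| ≤ 9 / 4 := by
      intro x hx
      have e1 : (j : ℝ) - (-x / (2 * Real.pi * uk k)) = (x + th k j) / (2 * Real.pi * uk k) := by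
        unfold th
        field_simp
        ring
      rw [e1, abs_div, abs_of_pos (by positivity : 0 < 2 * Real.pi * uk k),
        div_le_iff₀ (by positivity)]
      rw [div_mul_eq_mul_div, div_le_iff₀ hpi] at hx
      linarith
    by_cases hx : a + th k j ≤ Real.pi
    · left
      apply hkey a
      exact (norm_exp_ge (by rw [abs_le]; constructor <;> linarith)).trans h1
    · right
      push Not at hx
      have h5 := hkey (a - 2 * Real.pi) (by
        refine le_trans (norm_exp_ge ?_) ?_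
        · rw [abs_le]
          constructor <;> linarith
        · have e1 : Complex.exp (I * ((a - 2 * Real.pi + th k j : ℝ) : ℂ)) =
              Complex.exp (I * ((a + th k j : ℝ) : ℂ)) := by
            have e2 : I * ((a - 2 * Real.pi + th k j : ℝ) : ℂ) =
              I * ((a + th k j : ℝ) : ℂ) - 2 * Real.pi * I := by push_cast; ring
            rw [e2, Complex.exp_sub, Complex.exp_two_pi_mul_I, div_one]
          rw [e1]
          exact h1)
      have e3 : -(a - 2 * Real.pi) = 2 * Real.pi - a := by ring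
      rwa [e3] at h5
  have hsub : (Finset.range (2 ^ k)).filter (fun j => ζ ∈ near k j) ⊆
      ((Finset.range (2 ^ k)).filter (fun j : ℕ => |(j : ℝ) - (-a / (2 * Real.pi * uk k))| ≤ 9 / 4)) ∪
      ((Finset.range (2 ^ k)).filter
        (fun j : ℕ => |(j : ℝ) - ((2 * Real.pi - a) / (2 * Real.pi * uk k))| ≤ 9 / 4)) := by
    intro j hj
    have h1 := hcase j hj
    rw [Finset.mem_filter] at hj
    rw [Finset.mem_union, Finset.mem_filter, Finset.mem_filter]
    rcases h1 with h | h
    · exact Or.inl ⟨hj.1, h⟩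
    · exact Or.inr ⟨hj.1, h⟩
  refine (Finset.card_le_card hsub).trans ((Finset.card_union_le _ _).trans ?_)
  have h1 := card_le_five (S := (Finset.range (2 ^ k)).filter
    (fun j : ℕ => |(j : ℝ) - (-a / (2 * Real.pi * uk k))| ≤ 9 / 4)) (x := -a / (2 * Real.pi * uk k))
    (fun j hj => (Finset.mem_filter.mp hj).2)
  have h2 := card_le_five (S := (Finset.range (2 ^ k)).filter
    (fun j : ℕ => |(j : ℝ) - ((2 * Real.pi - a) / (2 * Real.pi * uk k))| ≤ 9 / 4))
    (x := (2 * Real.pi - a) / (2 * Real.pi * uk k)) (fun j hj => (Finset.mem_filter.mp hj).2)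
  omega

/-- there are few bad arcs -/
theorem bad_count {ν : Measure ℂ} [IsFiniteMeasure ν] (hν : ∀ᵐ ζ ∂ν, ‖ζ‖ = 1) {ε : ℝ} (k : ℕ)
    [DecidablePred fun j => ε < ν.real (near k j)] :
    ((Finset.range (2 ^ k)).filter fun j => ε < ν.real (near k j)).card * ε ≤ 10 * ν.real univ := by
  classical
  set S := (Finset.range (2 ^ k)).filter fun j => ε < ν.real (near k j) with hS
  have h1 : (S.card : ℝ) * ε ≤ ∑ j ∈ S, ν.real (near k j) := by
    rw [← nsmul_eq_mul]
    apply Finset.card_nsmul_le_sum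
    intro j hj
    exact (Finset.mem_filter.mp hj).2.le
  have h2 : ∑ j ∈ S, ν.real (near k j) ≤ ∑ j ∈ Finset.range (2 ^ k), ν.real (near k j) := by
    apply Finset.sum_le_sum_of_subset_of_nonneg (Finset.filter_subset _ _)
    intro j _ _
    exact measureReal_nonneg
  have h3 : ∑ j ∈ Finset.range (2 ^ k), ν.real (near k j) =
      ∫ ζ, ∑ j ∈ Finset.range (2 ^ k), (near k j).indicator (fun _ => (1 : ℝ)) ζ ∂ν := by
    rw [integral_finsetSum]
    · apply Finset.sum_congr rfl
      intro j _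
      rw [integral_indicator_const _ (near_meas k j), smul_eq_mul, mul_one]
    · intro j _
      exact (integrable_const _).indicator (near_meas k j)
  have h4 : ∫ ζ, ∑ j ∈ Finset.range (2 ^ k), (near k j).indicator (fun _ => (1 : ℝ)) ζ ∂ν ≤
      ∫ ζ, (10 : ℝ) ∂ν := by
    apply integral_mono_ae
    · apply integrable_finsetSum
      intro j _
      exact (integrable_const _).indicator (near_meas k j)
    · exact integrable_const _
    · filter_upwards [hν] with ζ hζ
      have h5 := count_near hζ k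
      have h6 : ∑ j ∈ Finset.range (2 ^ k), (near k j).indicator (fun _ => (1 : ℝ)) ζ =
          (((Finset.range (2 ^ k)).filter fun j => ζ ∈ near k j).card : ℝ) := by
        rw [Finset.card_filter]
        push_cast
        apply Finset.sum_congr rfl
        intro j _
        by_cases h : ζ ∈ near k j
        · rw [indicator_of_mem h, if_pos h]
        · rw [indicator_of_notMem h, if_neg h]
      rw [h6]
      exact_mod_cast h5
  rw [integral_const, smul_eq_mul] at h4
  linarith

end Pool.Agent.H46KC
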