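import Mathlib
import Pool.Agent.H46KC.Geo

/-!
# The mean over the circle
-/

set_option autoImplicit false

open Complex Metric Set Filter Topology MeasureTheory

namespace Pool.Agent.H46KC

theorem sum_two (f : ℕ → ℝ) (m : ℕ) : ∑ j ∈ Finset.range (2 * m), f j =
    ∑ j ∈ Finset.range m, (f (2 * j) + f (2 * j + 1)) := by
  induction m with
  | zero => simp
  | succ m ih =>
    rw [Finset.sum_range_succ, ← ih, show 2 * (m + 1) = 2 * m + 1 + 1 by ring,
      Finset.sum_range_succ, Finset.sum_range_succ]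
    ring

/-- The stopping time argument. -/
theorem stopping {V : ℕ → ℕ → ℝ} (hV : ∀ k j, V k j = V (k + 1) (2 * j) + V (k + 1) (2 * j + 1))
    (hV0 : ∀ k j, 0 ≤ V k j) {bad : ℕ → ℕ → Prop} [∀ k, DecidablePred (bad k)] {n : ℕ}
    {G : ℕ → ℝ} (hG0 : ∀ k, 0 ≤ G k)
    (hgood : ∀ k ≤ n, ∀ j < 2 ^ k, ¬ bad k j → V k j ≤ G k) {B : ℝ} (hB0 : 0 ≤ B)
    (hcount : ∀ k, (((Finset.range (2 ^ k)).filter (bad k)).card : ℝ) ≤ B) {E : ℝ} (hE0 : 0 ≤ E)
    (hE : ∀ j < 2 ^ n, V n j ≤ E) :
    V 0 0 ≤ G 0 + 2 * B * ∑ i ∈ Finset.range (n + 1), G i + B * E := by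
  classical
  set T : ℕ → ℝ := fun k => ∑ j ∈ Finset.range (2 ^ k), if bad k j then V k j else 0 with hT
  have hTn : T n ≤ B * E := by
    simp only [hT]
    rw [← Finset.sum_filter]
    calc ∑ j ∈ (Finset.range (2 ^ n)).filter (bad n), V n j ≤
        ∑ j ∈ (Finset.range (2 ^ n)).filter (bad n), E := by
          apply Finset.sum_le_sum
          intro j hj
          exact hE j (Finset.mem_range.mp (Finset.mem_filter.mp hj).1)
      _ = (((Finset.range (2 ^ n)).filter (bad n)).card : ℝ) * E := by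
          rw [Finset.sum_const, nsmul_eq_mul]
      _ ≤ B * E := mul_le_mul_of_nonneg_right (hcount n) hE0
  have hstep : ∀ k < n, T k ≤ 2 * B * G (k + 1) + T (k + 1) := by
    intro k hk
    have hchild : ∀ i < 2 ^ (k + 1), V (k + 1) i ≤ G (k + 1) +
        (if bad (k + 1) i then V (k + 1) i else 0) := by
      intro i hi
      by_cases hb : bad (k + 1) i
      · rw [if_pos hb]
        linarith [hG0 (k + 1)]
      · rw [if_neg hb, add_zero]
        exact hgood (k + 1) (by omega) i hi hb
    have h1 : ∀ j ∈ Finset.range (2 ^ k), (if bad k j then V k j else 0) ≤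
        (if bad k j then 2 * G (k + 1) else 0) +
        ((if bad (k + 1) (2 * j) then V (k + 1) (2 * j) else 0) +
         (if bad (k + 1) (2 * j + 1) then V (k + 1) (2 * j + 1) else 0)) := by
      intro j hj
      rw [Finset.mem_range] at hj
      have hp : 2 ^ (k + 1) = 2 * 2 ^ k := by rw [pow_succ]; ring
      have c1 := hchild (2 * j) (by omega)
      have c2 := hchild (2 * j + 1) (by omega)
      have n1 : 0 ≤ (if bad (k + 1) (2 * j) then V (k + 1) (2 * j) else 0) := by
        split_ifs
        · exact hV0 _ _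
        · exact le_rfl
      have n2 : 0 ≤ (if bad (k + 1) (2 * j + 1) then V (k + 1) (2 * j + 1) else 0) := by
        split_ifs
        · exact hV0 _ _
        · exact le_rfl
      by_cases hb : bad k j
      · rw [if_pos hb, if_pos hb, hV k j]
        linarith
      · rw [if_neg hb, if_neg hb]
        linarith
    have h2 := Finset.sum_le_sum h1
    rw [Finset.sum_add_distrib, ← sum_two (fun i => if bad (k + 1) i then V (k + 1) i else 0)] at h2
    have hp : 2 * 2 ^ k = 2 ^ (k + 1) := by rw [pow_succ]; ring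
    have h5 : ∑ j ∈ Finset.range (2 ^ k), (if bad k j then 2 * G (k + 1) else 0) =
        (((Finset.range (2 ^ k)).filter (bad k)).card : ℝ) * (2 * G (k + 1)) := by
      rw [← Finset.sum_filter, Finset.sum_const, nsmul_eq_mul]
    rw [hp, h5] at h2
    have h3 : (((Finset.range (2 ^ k)).filter (bad k)).card : ℝ) * (2 * G (k + 1)) ≤
        B * (2 * G (k + 1)) :=
      mul_le_mul_of_nonneg_right (hcount k) (by linarith [hG0 (k + 1)])
    have h4 : T k ≤ (((Finset.range (2 ^ k)).filter (bad k)).card : ℝ) * (2 * G (k + 1)) +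
        T (k + 1) := h2
    linarith
  have hall : ∀ m ≤ n, T 0 ≤ 2 * B * ∑ i ∈ Finset.range m, G (i + 1) + T m := by
    intro m
    induction m with
    | zero => intro _; simp
    | succ m ih =>
      intro hm
      have h1 := ih (by omega)
      have h2 := hstep m (by omega)
      rw [Finset.sum_range_succ]
      linarith
  have h0 : V 0 0 ≤ G 0 + T 0 := by
    simp only [hT]
    rw [pow_zero, Finset.sum_range_one]
    by_cases hb : bad 0 0
    · rw [if_pos hb]
      linarith [hG0 0]
    · rw [if_neg hb, add_zero]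
      exact hgood 0 (Nat.zero_le n) 0 (by norm_num) hb
  have h1 := hall n le_rfl
  have h2 : ∑ i ∈ Finset.range n, G (i + 1) ≤ ∑ i ∈ Finset.range (n + 1), G i := by
    rw [Finset.sum_range_succ']
    linarith [hG0 0]
  have h3 : 2 * B * ∑ i ∈ Finset.range n, G (i + 1) ≤ 2 * B * ∑ i ∈ Finset.range (n + 1), G i :=
    mul_le_mul_of_nonneg_left h2 (by linarith)
  linarith

/-- the exponential of `q log (c / u)` -/
theorem geom {q : ℝ} (k : ℕ) (c : ℝ) (hc : 0 < c) :
    uk k * Real.exp (q * Real.log (c / uk k)) =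
      Real.exp (q * Real.log c) * Real.exp (-((1 - q) * Real.log 2)) ^ k := by
  have hu := uk_pos k
  have h1 : Real.log (uk k) = -(k * Real.log 2) := by
    unfold uk
    rw [Real.log_pow, one_div, Real.log_inv]
    ring
  have h2 : uk k = Real.exp (-(k * Real.log 2)) := by
    rw [← h1, Real.exp_log hu]
  rw [Real.log_div hc.ne' hu.ne', h1, ← Real.exp_nat_mul, h2, ← Real.exp_add, ← Real.exp_add]
  congr 1
  ring

/-- **The integral over the circle.** -/
theorem circle_le {β M q : ℝ} (hβ : 0 ≤ β) (hM : 0 ≤ M) (hq0 : 0 ≤ q) (hτ : q < 1) (hτβ : q * β < 1) :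
    ∃ C : ℝ, 0 ≤ C ∧ ∀ τ : ℂ, ‖τ‖ = q → ∀ (ν : Measure ℂ) [IsFiniteMeasure ν] (w H : ℂ → ℂ) (γ : ℝ),
      (∀ᵐ ζ ∂ν, ‖ζ‖ = 1) → ν.real univ ≤ M → Measurable w → (∀ ζ, ‖w ζ‖ ≤ 1) →
      DifferentiableOn ℂ H (ball 0 1) →
      (∀ v ∈ ball (0 : ℂ) 1, ‖H v‖ ≤ -Real.log (1 - ‖v‖ ^ 2)) →
      (∀ v ∈ ball (0 : ℂ) 1, |(H v - pot ν w v).im - γ| ≤ β * (Real.pi / 2)) →
      ∀ r : ℝ, 1 / 2 ≤ r → r < 1 →
      ∫ θ in (0:ℝ)..(2 * Real.pi), ‖Complex.exp (τ * H (circleMap 0 r θ))‖ ≤ C := by
  classical
  have hpi := Real.pi_pos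
  set ε : ℝ := (1 - q * β) / 2 with hε
  have hε0 : 0 < ε := by rw [hε]; linarith
  set η : ℝ := (Real.pi / 2) * ((1 + q * β) / 2) with hη
  have hη1 : η < Real.pi / 2 := by
    rw [hη]
    have : (1 + q * β) / 2 < 1 := by linarith
    nlinarith
  have hη0 : 0 ≤ η := by
    rw [hη]
    positivity
  have hcos : 0 < Real.cos η := Real.cos_pos_of_mem_Ioo ⟨by linarith, hη1⟩
  set D : ℝ := 2 * Real.pi * 98 * (1 / Real.cos η) *
    Real.exp (2 * η + q * ((Real.log (1 + 28) + Real.pi) * M)) with hD
  have hD0 : 0 ≤ D := by positivity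
  set x : ℝ := Real.exp (-((1 - q) * Real.log 2)) with hx
  have hlog2 : 0 < Real.log 2 := Real.log_pos (by norm_num)
  have hx0 : 0 < x := Real.exp_pos _
  have hx1 : x < 1 := by
    rw [hx, Real.exp_lt_one_iff]
    nlinarith
  set G : ℕ → ℝ := fun k => D * (Real.exp (q * Real.log 4) * x ^ k) with hG
  set B : ℝ := 10 * M / ε with hB
  have hB0 : 0 ≤ B := by positivity
  set E : ℝ := 2 * Real.pi * Real.exp (q * Real.log 2) with hE
  refine ⟨G 0 + 2 * B * (D * Real.exp (q * Real.log 4) * (1 / (1 - x))) + B * E, by positivity, ?_⟩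
  intro τ hq ν _ w H γ hν hνM hw hw1 hH hGol hcl r hr hr1
  have hr0 : 0 < r := by linarith
  have hmem : ∀ θ : ℝ, circleMap 0 r θ ∈ ball (0 : ℂ) 1 := fun θ =>
    closedBall_subset_ball hr1 (circleMap_mem_closedBall 0 hr0.le θ)
  -- the level
  obtain ⟨n, hn1, hn2⟩ : ∃ n : ℕ, 1 - r ≤ uk n ∧ uk (n + 1) < 1 - r := by
    have hex : ∃ m : ℕ, uk m < 1 - r := by
      unfold uk
      exact exists_pow_lt_of_lt_one (by linarith) (by norm_num)
    have h0 : Nat.find hex ≠ 0 := by
      intro h
      have := Nat.find_spec hex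
      rw [h] at this
      unfold uk at this
      rw [pow_zero] at this
      linarith
    refine ⟨Nat.find hex - 1, ?_, ?_⟩
    · exact not_lt.mp (Nat.find_min hex (by omega))
    · have := Nat.find_spec hex
      rwa [Nat.sub_add_cancel (by omega)]
  set F : ℝ → ℝ := fun θ => ‖Complex.exp (τ * H (circleMap 0 r θ))‖ with hF
  have hFc : Continuous F := by
    rw [← continuousOn_univ]
    exact (Complex.continuous_exp.comp_continuousOn (continuousOn_const.mul
      (hH.continuousOn.comp (continuous_circleMap 0 r).continuousOn fun θ _ => hmem θ))).norm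
  set V : ℕ → ℕ → ℝ := fun k j => ∫ θ in (th k j)..(th k (j + 1)), F θ with hV
  have hV1 : ∀ k j, V k j = V (k + 1) (2 * j) + V (k + 1) (2 * j + 1) := by
    intro k j
    simp only [hV]
    rw [intervalIntegral.integral_add_adjacent_intervals (hFc.intervalIntegrable _ _)
      (hFc.intervalIntegrable _ _), th_two, show 2 * j + 1 + 1 = 2 * (j + 1) by ring, th_two]
  have hV0 : ∀ k j, 0 ≤ V k j := by
    intro k j
    apply intervalIntegral.integral_nonneg (th_mono (Nat.le_succ j))
    intro θ _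
    exact norm_nonneg _
  have hV00 : V 0 0 = ∫ θ in (0:ℝ)..(2 * Real.pi), F θ := by
    simp only [hV]
    congr 1
    · simp [th]
    · simp [th, uk]
  have hmono : ∀ k ≤ n, 1 - r ≤ uk k := by
    intro k hk
    refine hn1.trans ?_
    unfold uk
    exact pow_le_pow_of_le_one (by norm_num) (by norm_num) hk
  have hgood : ∀ k ≤ n, ∀ j < 2 ^ k, ¬ (ε < ν.real (near k j)) → V k j ≤ G k := by
    intro k hk j hj hb
    push Not at hb
    have hu := uk_pos k
    have hpt := norm_pt_lt (k := k) (j := j) hr0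
    have h1 := local_le hν hw hw1 hH hβ hcl hr0 hr1 hpt (κ := 1 / (98 * uk k)) (θ₀ := th k j)
      (θ₁ := th k (j + 1)) (by positivity) (th_nonneg k j) (th_mono (Nat.le_succ j))
      (th_le (by omega)) (fun θ hθ => kernel_ge hr0 hθ) (near_meas k j) (K := 28) (by norm_num)
      (fun ζ hζ hζ1 θ hθ => far_le hr hr1 (hmono k hk) hζ hζ1 hθ) (τ := τ) (η := η) hη1 (by
        rw [hq]
        have e1 : q * (Real.pi / 2) * ν.real (near k j) ≤ 1 * (Real.pi / 2) * ε := by gcongr
        rw [hη, hε] at *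
        linarith)
    refine h1.trans ?_
    have h2 : ‖Complex.exp (τ * H (pt r k j))‖ ≤ Real.exp (q * Real.log (4 / uk k)) := by
      rw [Complex.norm_exp, Real.exp_le_exp]
      refine (Complex.re_le_norm _).trans ?_
      rw [norm_mul, hq]
      apply mul_le_mul_of_nonneg_left _ hq0
      have hpb : pt r k j ∈ ball (0 : ℂ) 1 := by
        rw [mem_ball_zero_iff]
        linarith
      refine (hGol _ hpb).trans ?_
      have h3 := one_sub_sq_ge (k := k) (j := j) hr hr1
      have h4 := Real.log_le_log (by positivity) h3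
      have h5 : Real.log (4 / uk k) = -Real.log (uk k / 4) := by
        rw [← Real.log_inv, inv_div]
      rw [h5]
      linarith
    have h3 : Real.exp (2 * η + ‖τ‖ * ((Real.log (1 + 28) + Real.pi) * ν.real univ)) ≤
        Real.exp (2 * η + q * ((Real.log (1 + 28) + Real.pi) * M)) := by
      rw [hq, Real.exp_le_exp]
      have h4 : 0 ≤ Real.log (1 + 28) := Real.log_nonneg (by norm_num)
      gcongr
    have h4 : 2 * Real.pi / (1 / (98 * uk k)) = 2 * Real.pi * 98 * uk k := by
      field_simp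
    rw [h4]
    simp only [hG]
    rw [← geom k 4 (by norm_num)]
    calc 2 * Real.pi * 98 * uk k * (1 / Real.cos η) *
        Real.exp (2 * η + ‖τ‖ * ((Real.log (1 + 28) + Real.pi) * ν.real univ)) *
        ‖Complex.exp (τ * H (pt r k j))‖ ≤
        2 * Real.pi * 98 * uk k * (1 / Real.cos η) *
        Real.exp (2 * η + q * ((Real.log (1 + 28) + Real.pi) * M)) *
        Real.exp (q * Real.log (4 / uk k)) := by gcongr
      _ = _ := by rw [hD]; ring
  have hcount : ∀ k, (((Finset.range (2 ^ k)).filter (fun j => ε < ν.real (near k j))).card : ℝ) ≤ B := by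
    intro k
    have h1 := bad_count hν (ε := ε) k
    rw [hB, le_div_iff₀ hε0]
    linarith
  have hE1 : ∀ j < 2 ^ n, V n j ≤ E := by
    intro j hj
    have hu := uk_pos n
    have h1 : ∀ θ : ℝ, F θ ≤ Real.exp (q * Real.log (2 / uk n)) := by
      intro θ
      simp only [hF]
      rw [Complex.norm_exp, Real.exp_le_exp]
      refine (Complex.re_le_norm _).trans ?_
      rw [norm_mul, hq]
      apply mul_le_mul_of_nonneg_left _ hq0
      refine (hGol _ (hmem θ)).trans ?_
      rw [norm_circleMap_zero, abs_of_pos hr0]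
      have h3 : uk n / 2 ≤ 1 - r ^ 2 := by
        rw [uk_succ] at hn2
        nlinarith
      have h4 := Real.log_le_log (by positivity) h3
      have h5 : Real.log (2 / uk n) = -Real.log (uk n / 2) := by
        rw [← Real.log_inv, inv_div]
      rw [h5]
      linarith
    have h2 : V n j ≤ ∫ θ in (th n j)..(th n (j + 1)), Real.exp (q * Real.log (2 / uk n)) := by
      apply intervalIntegral.integral_mono_on (th_mono (Nat.le_succ j)) (hFc.intervalIntegrable _ _)
        (by simp)
      intro θ _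
      exact h1 θ
    rw [intervalIntegral.integral_const, th_succ, smul_eq_mul] at h2
    have h3 := geom (q := q) n 2 (by norm_num)
    have h4 : Real.exp (-((1 - q) * Real.log 2)) ^ n ≤ 1 := pow_le_one₀ hx0.le hx1.le
    calc V n j ≤ (th n j + 2 * Real.pi * uk n - th n j) * Real.exp (q * Real.log (2 / uk n)) := h2
      _ = 2 * Real.pi * (uk n * Real.exp (q * Real.log (2 / uk n))) := by ring
      _ = 2 * Real.pi * (Real.exp (q * Real.log 2) * Real.exp (-((1 - q) * Real.log 2)) ^ n) := by
          rw [h3]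
      _ ≤ 2 * Real.pi * (Real.exp (q * Real.log 2) * 1) := by gcongr
      _ = E := by rw [hE, mul_one]
  have hmain := stopping hV1 hV0 (bad := fun k j => ε < ν.real (near k j)) (n := n) (G := G)
    (fun k => by simp only [hG]; positivity) hgood hB0 hcount (E := E) (by positivity) hE1
  rw [hV00] at hmain
  refine hmain.trans ?_
  have hsum : ∑ i ∈ Finset.range (n + 1), G i ≤ D * Real.exp (q * Real.log 4) * (1 / (1 - x)) := by
    have e1 : ∑ i ∈ Finset.range (n + 1), G i =
        D * Real.exp (q * Real.log 4) * ∑ i ∈ Finset.range (n + 1), x ^ i := by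
      rw [Finset.mul_sum]
      apply Finset.sum_congr rfl
      intro i _
      simp only [hG]
      ring
    rw [e1]
    apply mul_le_mul_of_nonneg_left _ (by positivity)
    rw [geom_sum_eq hx1.ne, ← neg_div_neg_eq]
    apply div_le_div_of_nonneg_right _ (by linarith) |>.trans (le_of_eq _)
    · exact 1
    · have : 0 < x ^ (n + 1) := by positivity
      linarith
    · congr 1
      ring
  gcongr

end Pool.Agent.H46KC
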