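import Mathlib
import Pool.Agent.H46KC.Rec
import Pool.Agent.Z55M.Fin

/-!
# Functions in the disc near a potential: means and exponential squares
-/

set_option autoImplicit false

open Complex Metric Set Filter Topology MeasureTheory

namespace Pool.Agent.H46KC

open Pool.Agent.TH325.SI (mn em la)
open Pool.Agent.Z55M (sphere_sub cint av_mulr directions)

/-- `H - pot` takes its values in a strip of width `β π`. -/
def Cls (M β : ℝ) (H : ℂ → ℂ) : Prop :=
  DifferentiableOn ℂ H (ball 0 1) ∧ (∀ v ∈ ball (0 : ℂ) 1, ‖H v‖ ≤ -Real.log (1 - ‖v‖ ^ 2)) ∧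
  ∃ (ν : Measure ℂ) (w : ℂ → ℂ) (u : ℂ) (γ : ℝ), IsFiniteMeasure ν ∧ (∀ᵐ ζ ∂ν, ‖ζ‖ = 1) ∧ ν.real univ ≤ M ∧
    Measurable w ∧ (∀ ζ, ‖w ζ‖ ≤ 1) ∧ ‖u‖ = 1 ∧
    ∀ v ∈ ball (0 : ℂ) 1, |(u * (H v - pot ν w v)).im - γ| ≤ β * (Real.pi / 2)

theorem pot_const (ν : Measure ℂ) (w : ℂ → ℂ) (u v : ℂ) : pot ν (fun ζ => u * w ζ) v = u * pot ν w v := by
  unfold pot
  rw [← integral_const_mul]
  congr 1
  ext ζ
  ring

theorem mean_cls {β M q : ℝ} (hβ : 0 ≤ β) (hM : 0 ≤ M) (hq0 : 0 ≤ q) (hq1 : q < 1) (hqβ : q * β < 1) :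
    ∃ C : ℝ, ∀ τ : ℂ, ‖τ‖ = q → ∀ H : ℂ → ℂ, Cls M β H → ∀ r : ℝ, 0 < r → r < 1 →
      Real.circleAverage (fun v => ‖Complex.exp (τ * H v)‖) 0 r ≤ C := by
  have hpi := Real.pi_pos
  obtain ⟨C, hC0, hC⟩ := circle_le hβ hM hq0 hq1 hqβ
  refine ⟨max (C / (2 * Real.pi)) (Real.exp 1), fun τ hτ H hH r hr0 hr1 => ?_⟩
  obtain ⟨hHd, hGol, ν, w, u, γ, hfin, hν, hνM, hw, hw1, hu, hcl⟩ := hH
  have hra : |r| < 1 := by rwa [abs_of_pos hr0]
  have hu0 : u ≠ 0 := by
    rintro rfl
    simp at hu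
  by_cases hr : 1 / 2 ≤ r
  · refine le_trans ?_ (le_max_left _ _)
    have h1 := hC (τ * u⁻¹) (by rw [norm_mul, norm_inv, hu, inv_one, mul_one, hτ]) ν (fun ζ => u * w ζ)
      (fun v => u * H v) γ hν hνM (hw.const_mul u) (fun ζ => by rw [norm_mul, hu, one_mul]; exact hw1 ζ)
      (hHd.const_mul u) (fun v hv => by rw [norm_mul, hu, one_mul]; exact hGol v hv)
      (fun v hv => by
        rw [pot_const, ← mul_sub]
        exact hcl v hv) r hr hr1
    unfold Real.circleAverage
    rw [smul_eq_mul, div_eq_inv_mul]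
    apply mul_le_mul_of_nonneg_left _ (by positivity)
    refine le_trans (le_of_eq ?_) h1
    apply intervalIntegral.integral_congr
    intro θ _
    show ‖Complex.exp (τ * H (circleMap 0 r θ))‖ = ‖Complex.exp (τ * u⁻¹ * (u * H (circleMap 0 r θ)))‖
    congr 2
    field_simp
  · refine le_trans ?_ (le_max_right _ _)
    push Not at hr
    have h1 : Real.circleAverage (fun _ : ℂ => Real.exp 1) 0 r = Real.exp 1 := Real.circleAverage_const _ _ _
    rw [← h1]
    apply Real.circleAverage_mono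
    · exact cint (Complex.continuous_exp.comp_continuousOn (continuousOn_const.mul hHd.continuousOn)).norm hra
    · exact cint continuousOn_const hra
    · intro v hv
      have hvb := sphere_sub hra hv
      have h2 := hGol v hvb
      rw [mem_sphere_zero_iff_norm, abs_of_pos hr0] at hv
      rw [hv] at h2
      rw [Complex.norm_exp, Real.exp_le_exp]
      refine (Complex.re_le_norm _).trans ?_
      rw [norm_mul, hτ]
      have h3 : -Real.log (1 - r ^ 2) ≤ 1 := by
        have h4 : (1 - r ^ 2)⁻¹ ≤ Real.exp 1 := by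
          have h5 := Real.add_one_le_exp (1 : ℝ)
          refine le_trans ?_ h5
          rw [inv_le_comm₀ (by nlinarith) (by norm_num)]
          nlinarith
        have h6 : 0 < 1 - r ^ 2 := by nlinarith
        rw [← Real.log_inv]
        calc Real.log (1 - r ^ 2)⁻¹ ≤ Real.log (Real.exp 1) := Real.log_le_log (by positivity) h4
          _ = 1 := Real.log_exp 1
      have h7 := norm_nonneg (H v)
      nlinarith

/-- **exponential squares from means** -/
theorem em_dir {β a : ℝ} (ha0 : 0 < a) (ha1 : a < 1) (haβ : a * β < 1) :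
    ∃ T : Finset ℂ, (∀ τ ∈ T, ‖τ‖ < 1 ∧ ‖τ‖ * β < 1) ∧ ∀ H : ℂ → ℂ, DifferentiableOn ℂ H (ball 0 1) →
      (∀ v ∈ ball (0 : ℂ) 1, ‖H v‖ ≤ -Real.log (1 - ‖v‖ ^ 2)) → ∀ r : ℝ, 0 < r → r < 1 →
      em H (a / la r) r ≤ ∑ τ ∈ T, Real.circleAverage (fun v => ‖Complex.exp (τ * H v)‖) 0 r := by
  classical
  set m : ℝ := max 1 β with hm
  have hm1 : 1 ≤ m := le_max_left _ _
  have hmβ : β ≤ m := le_max_right _ _
  have hm0 : 0 < m := by linarith
  have ham : a * m < 1 := by
    rcases max_cases 1 β with h | h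
    · rw [hm, h.1, mul_one]; exact ha1
    · rw [hm, h.1]; exact haβ
  obtain ⟨T, hT1, hT2⟩ := directions (a := a * m) (by positivity) ham
  have hinj : Function.Injective (fun τ : ℂ => τ / (m : ℂ)) := by
    intro x y hxy
    have hmc : (m : ℂ) ≠ 0 := by exact_mod_cast hm0.ne'
    exact (div_left_inj' hmc).1 hxy
  refine ⟨T.image (fun τ : ℂ => τ / (m : ℂ)), ?_, fun H hd hG r hr hr1 => ?_⟩
  · intro σ hσ
    rw [Finset.mem_image] at hσ
    obtain ⟨τ, hτ, rfl⟩ := hσ
    have h1 := hT1 τ hτ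
    rw [norm_div, Complex.norm_real, Real.norm_of_nonneg hm0.le]
    constructor
    · rw [div_lt_one hm0]
      linarith
    · rw [div_mul_eq_mul_div, div_lt_one hm0]
      have h2 := norm_nonneg τ
      nlinarith
  rw [Finset.sum_image hinj.injOn]
  have hra : |r| < 1 := by rwa [abs_of_pos hr]
  have hci : ∀ τ : ℂ, ContinuousOn (fun v => ‖Complex.exp (τ / (m : ℂ) * H v)‖) (ball 0 1) := fun τ =>
    (Complex.continuous_exp.comp_continuousOn (continuousOn_const.mul hd.continuousOn)).norm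
  have hla : 0 < la r := by
    unfold la
    have : Real.log (1 - r ^ 2) < 0 := Real.log_neg (by nlinarith) (by nlinarith)
    linarith
  have e1 : em H (a / la r) r = Real.circleAverage (fun v => Real.exp (a / la r * ‖H v‖ ^ 2)) 0 r := by
    unfold Pool.Agent.TH325.SI.em Real.circleAverage
    rfl
  have e2 : ∑ τ ∈ T, Real.circleAverage (fun v => ‖Complex.exp (τ / (m : ℂ) * H v)‖) 0 r =
      Real.circleAverage (fun v => ∑ τ ∈ T, ‖Complex.exp (τ / (m : ℂ) * H v)‖) 0 r := by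
    unfold Real.circleAverage
    rw [intervalIntegral.integral_finsetSum, Finset.smul_sum]
    intro τ _
    exact (cint (hci τ) hra)
  rw [e1, e2]
  apply Real.circleAverage_mono
  · exact cint (Real.continuous_exp.comp_continuousOn (continuousOn_const.mul (hd.continuousOn.norm.pow 2))) hra
  · exact cint (continuousOn_finsetSum _ fun τ _ => hci τ) hra
  · intro v hv
    have hvb := sphere_sub hra hv
    have h2 := hG v hvb
    rw [mem_sphere_zero_iff_norm, abs_of_pos hr] at hv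
    rw [hv] at h2
    have h3 : ‖H v‖ ≤ la r := h2
    have h5 := hT2 (H v / (m : ℂ))
    have h6 : ∀ τ : ℂ, τ * (H v / (m : ℂ)) = τ / (m : ℂ) * H v := fun τ => by ring
    simp only [h6] at h5
    refine le_trans ?_ h5
    rw [Real.exp_le_exp, norm_div, Complex.norm_real, Real.norm_of_nonneg hm0.le, div_mul_eq_mul_div,
      div_le_iff₀ hla]
    have h4 := norm_nonneg (H v)
    have h7 : a * m * (‖H v‖ / m) = a * ‖H v‖ := by field_simp
    rw [h7]
    nlinarith [mul_nonneg ha0.le h4, mul_le_mul_of_nonneg_left h3 (mul_nonneg ha0.le h4)]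

end Pool.Agent.H46KC
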