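import Mathlib
import Pool.Agent.H46KC.Pot

/-!
# Step functions on the circle and potentials of finitely many masses
-/

set_option autoImplicit false

open Complex Metric Set Filter Topology MeasureTheory

namespace Pool.Agent.H46KC

/-- sample points -/
noncomputable def tk (N k : ℕ) : ℝ := 2 * Real.pi * (k / N)

/-- the angle `arg (1 - e^{-it} v)` -/
noncomputable def ak (v : ℂ) (t : ℝ) : ℝ := (Complex.log (1 - Complex.exp (-(t * I)) * v)).im

theorem ak_deriv {v : ℂ} (hv : ‖v‖ < 1) (t : ℝ) :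
    HasDerivAt (fun t : ℝ => t + 2 * ak v t) (herglotzRieszKernel 0 v (circleMap 0 1 t)).re t := by
  have hn : ‖Complex.exp (-(t * I))‖ = 1 := by
    rw [← neg_mul, ← Complex.ofReal_neg, Complex.norm_exp_ofReal_mul_I]
  have hpos : 0 < (1 - Complex.exp (-(t * I)) * v).re := one_sub_re_pos hn hv
  have hne : 1 - Complex.exp (-(t * I)) * v ≠ 0 := by
    intro h
    rw [h] at hpos
    simp at hpos
  have h1 : HasDerivAt (fun t : ℝ => Complex.exp (-(t * I))) (-(I * Complex.exp (-(t * I)))) t := by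
    have h2 : HasDerivAt (fun t : ℝ => -((t : ℂ) * I)) (-I) t := by
      have h3 : HasDerivAt (fun t : ℝ => (t : ℂ)) 1 t := Complex.ofRealCLM.hasDerivAt
      exact ((h3.mul_const I).neg).congr_deriv (by ring)
    exact h2.cexp.congr_deriv (by ring)
  have h4 : HasDerivAt (fun t : ℝ => Complex.log (1 - Complex.exp (-(t * I)) * v))
      (I * (Complex.exp (-(t * I)) * v / (1 - Complex.exp (-(t * I)) * v))) t := by
    have h5 := ((h1.mul_const v).const_sub 1).clog_real (Or.inl hpos)
    exact h5.congr_deriv (by ring)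
  have h6 : HasDerivAt (fun t : ℝ => ak v t)
      (I * (Complex.exp (-(t * I)) * v / (1 - Complex.exp (-(t * I)) * v))).im t :=
    Complex.imCLM.hasFDerivAt.comp_hasDerivAt t h4
  refine ((hasDerivAt_id t).add (h6.const_mul 2)).congr_deriv ?_
  have h7 : herglotzRieszKernel 0 v (circleMap 0 1 t) =
      1 + 2 * (Complex.exp (-(t * I)) * v / (1 - Complex.exp (-(t * I)) * v)) := by
    rw [herglotzRieszKernel_def, circleMap]
    have h8 : Complex.exp (t * I) * Complex.exp (-(t * I)) = 1 := by
      rw [← Complex.exp_add, add_neg_cancel, Complex.exp_zero]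
    have h9 : Complex.exp (t * I) - v ≠ 0 := by
      intro h
      apply hne
      have : v = Complex.exp (t * I) := (sub_eq_zero.1 h).symm
      rw [this, mul_comm, h8, sub_self]
    simp only [zero_add, sub_zero, Complex.ofReal_one, one_mul]
    have h10 : Complex.exp (-(t * I)) * v / (1 - Complex.exp (-(t * I)) * v) * (Complex.exp (t * I) - v) = v := by
      rw [div_mul_eq_mul_div, div_eq_iff hne]
      linear_combination v * h8
    rw [div_eq_iff h9]
    linear_combination (-2) * h10
  rw [h7]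
  simp only [Complex.add_re, Complex.one_re, Complex.mul_re, Complex.mul_im, Complex.I_re, Complex.I_im,
    Complex.re_ofNat, Complex.im_ofNat]
  ring

theorem ker_cont {v : ℂ} (hv : ‖v‖ < 1) :
    Continuous (fun t : ℝ => (herglotzRieszKernel 0 v (circleMap 0 1 t)).re) := by
  apply Complex.continuous_re.comp
  rw [← continuousOn_univ]
  have hvb : v ∈ ball (0 : ℂ) 1 := by rwa [mem_ball_zero_iff]
  apply (continuousOn_herglotzRieszKernel_sphere hvb).comp (continuous_circleMap 0 1).continuousOn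
  intro t _
  rw [abs_one]
  exact circleMap_mem_sphere 0 zero_le_one t

theorem ker_pos {v : ℂ} (hv : ‖v‖ < 1) (t : ℝ) : 0 ≤ (herglotzRieszKernel 0 v (circleMap 0 1 t)).re := by
  have hvb : v ∈ ball (0 : ℂ) 1 := by rwa [mem_ball_zero_iff]
  refine le_trans ?_ (le_re_herglotzRieszKernel (circleMap_mem_sphere 0 zero_le_one t) hvb)
  rw [sub_zero]
  have := norm_nonneg v
  apply div_nonneg <;> linarith

theorem poisson_im {F : ℂ → ℂ} (hF : DiffContOnCl ℂ F (ball 0 1)) {v : ℂ} (hv : ‖v‖ < 1) :
    (F v).im = 1 / (2 * Real.pi) * ∫ t in (0:ℝ)..(2 * Real.pi),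
      (herglotzRieszKernel 0 v (circleMap 0 1 t)).re * (F (circleMap 0 1 t)).im := by
  have hvb : v ∈ ball (0 : ℂ) 1 := by rwa [mem_ball_zero_iff]
  have h1 := hF.circleAverage_re_herglotzRieszKernel_smul hvb
  have hFc : ContinuousOn F (closedBall 0 1) := by
    have := hF.2
    rwa [closure_ball 0 one_ne_zero] at this
  have hci : CircleIntegrable ((Complex.re ∘ herglotzRieszKernel 0 v) • F) 0 1 := by
    apply ContinuousOn.circleIntegrable'
    rw [abs_one]
    have h2 := continuousOn_herglotzRieszKernel_sphere hvb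
    rw [abs_one] at h2
    exact (Complex.continuous_re.comp_continuousOn h2).smul (hFc.mono sphere_subset_closedBall)
  have h3 := Complex.imCLM.circleAverage_comp_comm hci
  rw [h1] at h3
  have h4 : Complex.imCLM (F v) = (F v).im := rfl
  rw [← h4, ← h3]
  unfold Real.circleAverage
  rw [smul_eq_mul, one_div]
  congr 1
  apply intervalIntegral.integral_congr
  intro t _
  simp [Function.comp]

theorem ak_two_pi (v : ℂ) : ak v (2 * Real.pi) = ak v 0 := by
  unfold ak
  have h1 : Complex.exp (-(((2 * Real.pi : ℝ) : ℂ) * I)) = 1 := by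
    rw [Complex.exp_neg]
    push_cast
    rw [Complex.exp_two_pi_mul_I, inv_one]
  rw [h1]
  simp

theorem tk_zero (N : ℕ) : tk N 0 = 0 := by simp [tk]

theorem tk_N {N : ℕ} (hN : 0 < N) : tk N N = 2 * Real.pi := by
  have : (N : ℝ) ≠ 0 := by positivity
  unfold tk
  rw [div_self this, mul_one]

theorem tk_mono {N : ℕ} {j k : ℕ} (h : j ≤ k) : tk N j ≤ tk N k := by
  unfold tk
  have := Real.pi_pos
  have h' : (j : ℝ) ≤ k := by exact_mod_cast h
  gcongr

theorem step_bound {F : ℂ → ℂ} (hF : DiffContOnCl ℂ F (ball 0 1)) {N : ℕ} (hN : 0 < N) {S : ℕ → ℝ} {B : ℝ}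
    (hS : ∀ k < N, ∀ t ∈ Icc (tk N k) (tk N (k + 1)), |(F (circleMap 0 1 t)).im - S k| ≤ B)
    {v : ℂ} (hv : ‖v‖ < 1) :
    |(F v).im - 1 / (2 * Real.pi) * ∑ k ∈ Finset.range N, S k * ((tk N (k + 1) + 2 * ak v (tk N (k + 1))) -
      (tk N k + 2 * ak v (tk N k)))| ≤ B := by
  have hpi := Real.pi_pos
  set K : ℝ → ℝ := fun t => (herglotzRieszKernel 0 v (circleMap 0 1 t)).re with hK
  have hKc : Continuous K := ker_cont hv
  have hK0 : ∀ t, 0 ≤ K t := ker_pos hv
  set g : ℝ → ℝ := fun t => t + 2 * ak v t with hg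
  have hgK : ∀ a b : ℝ, ∫ t in a..b, K t = g b - g a := fun a b =>
    intervalIntegral.integral_eq_sub_of_hasDerivAt (fun t _ => ak_deriv hv t) (hKc.intervalIntegrable _ _)
  have hFc : ContinuousOn F (closedBall 0 1) := by
    have := hF.2
    rwa [closure_ball 0 one_ne_zero] at this
  have hPc : Continuous (fun t : ℝ => (F (circleMap 0 1 t)).im) := by
    apply Complex.continuous_im.comp
    rw [← continuousOn_univ]
    exact hFc.comp (continuous_circleMap 0 1).continuousOn fun t _ =>
      sphere_subset_closedBall (circleMap_mem_sphere 0 zero_le_one t)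
  have hKP : Continuous (fun t : ℝ => K t * (F (circleMap 0 1 t)).im) := hKc.mul hPc
  have hSK : ∀ c : ℝ, Continuous (fun t : ℝ => c * K t) := fun c => continuous_const.mul hKc
  have h1 : ∫ t in (0:ℝ)..(2 * Real.pi), K t * (F (circleMap 0 1 t)).im =
      ∑ k ∈ Finset.range N, ∫ t in (tk N k)..(tk N (k + 1)), K t * (F (circleMap 0 1 t)).im := by
    rw [intervalIntegral.sum_integral_adjacent_intervals
      (fun k _ => hKP.intervalIntegrable _ _), tk_zero, tk_N hN]
  have h2 : ∀ k ∈ Finset.range N, |(∫ t in (tk N k)..(tk N (k + 1)), K t * (F (circleMap 0 1 t)).im) -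
      S k * (g (tk N (k + 1)) - g (tk N k))| ≤ B * (g (tk N (k + 1)) - g (tk N k)) := by
    intro k hk
    rw [← hgK, ← intervalIntegral.integral_const_mul, ← intervalIntegral.integral_sub
      (hKP.intervalIntegrable _ _) ((hSK _).intervalIntegrable _ _),
      ← intervalIntegral.integral_const_mul, ← Real.norm_eq_abs]
    apply intervalIntegral.norm_integral_le_of_norm_le (tk_mono (Nat.le_succ k))
    · refine Filter.Eventually.of_forall fun t ht => ?_
      rw [Real.norm_eq_abs, show K t * (F (circleMap 0 1 t)).im - S k * K t =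
        K t * ((F (circleMap 0 1 t)).im - S k) by ring, abs_mul, abs_of_nonneg (hK0 t), mul_comm]
      exact mul_le_mul_of_nonneg_right (hS k (Finset.mem_range.1 hk) t ⟨ht.1.le, ht.2⟩) (hK0 t)
    · exact (hSK _).intervalIntegrable _ _
  have h3 : (F v).im - 1 / (2 * Real.pi) * ∑ k ∈ Finset.range N, S k * (g (tk N (k + 1)) - g (tk N k)) =
      1 / (2 * Real.pi) * ∑ k ∈ Finset.range N, ((∫ t in (tk N k)..(tk N (k + 1)), K t * (F (circleMap 0 1 t)).im) -
      S k * (g (tk N (k + 1)) - g (tk N k))) := by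
    rw [Finset.sum_sub_distrib, mul_sub, ← h1, ← poisson_im hF hv]
  have h4 : ∑ k ∈ Finset.range N, (g (tk N (k + 1)) - g (tk N k)) = 2 * Real.pi := by
    rw [Finset.sum_range_sub (fun k => g (tk N k)), tk_zero, tk_N hN]
    simp only [hg]
    rw [ak_two_pi]
    ring
  show |(F v).im - 1 / (2 * Real.pi) * ∑ k ∈ Finset.range N, S k * (g (tk N (k + 1)) - g (tk N k))| ≤ B
  rw [h3, abs_mul, abs_of_pos (by positivity)]
  have h5 := (Finset.abs_sum_le_sum_abs (fun k => (∫ t in (tk N k)..(tk N (k + 1)), K t * (F (circleMap 0 1 t)).im) -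
      S k * (g (tk N (k + 1)) - g (tk N k))) (Finset.range N)).trans (Finset.sum_le_sum h2)
  rw [← Finset.mul_sum, h4] at h5
  calc 1 / (2 * Real.pi) * |∑ k ∈ Finset.range N, ((∫ t in (tk N k)..(tk N (k + 1)), K t * (F (circleMap 0 1 t)).im) -
      S k * (g (tk N (k + 1)) - g (tk N k)))| ≤ 1 / (2 * Real.pi) * (B * (2 * Real.pi)) := by gcongr
    _ = B := by field_simp

/-- summation by parts around the circle -/
theorem abel {N : ℕ} (hN : 0 < N) (S a : ℕ → ℝ) (ha : a N = a 0) :
    ∑ k ∈ Finset.range N, S k * (a (k + 1) - a k) =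
      ∑ k ∈ Finset.range N, ((if k = 0 then S (N - 1) else S (k - 1)) - S k) * a k := by
  obtain ⟨n, rfl⟩ : ∃ n, N = n + 1 := ⟨N - 1, by omega⟩
  have h1 : ∑ k ∈ Finset.range (n + 1), S k * a (k + 1) =
      ∑ k ∈ Finset.range (n + 1), (if k = 0 then S (n + 1 - 1) else S (k - 1)) * a k := by
    rw [Finset.sum_range_succ, Finset.sum_range_succ']
    simp only [Nat.add_eq_zero_iff, one_ne_zero, and_false, if_false, if_true, Nat.add_sub_cancel, ha]
  simp only [mul_sub, sub_mul, Finset.sum_sub_distrib]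
  rw [h1]

end Pool.Agent.H46KC
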