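import Mathlib
import Pool.Agent.H46KC.Cls
import Pool.Agent.H46KC.Step

/-!
# Boundary functions near a function of bounded variation
-/

set_option autoImplicit false

open Complex Metric Set Filter Topology MeasureTheory

namespace Pool.Agent.H46KC

/-- the nodes -/
noncomputable def nd (N k : ℕ) : ℂ := Complex.exp (-(tk N k * I))

theorem nd_norm (N k : ℕ) : ‖nd N k‖ = 1 := by
  unfold nd
  rw [← neg_mul, ← Complex.ofReal_neg, Complex.norm_exp_ofReal_mul_I]

theorem nd_inj {N j k : ℕ} (hj : j < N) (hk : k < N) (h : nd N j = nd N k) : j = k := by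
  have hN : N ≠ 0 := by omega
  have hNc : (N : ℂ) ≠ 0 := by exact_mod_cast hN
  have e : ∀ i : ℕ, nd N i = (Complex.exp (2 * Real.pi * I / N) ^ i)⁻¹ := by
    intro i
    unfold nd tk
    rw [← Complex.exp_nat_mul, ← Complex.exp_neg]
    congr 1
    push_cast
    field_simp
  rw [e, e, inv_inj] at h
  exact (Complex.isPrimitiveRoot_exp N hN).pow_inj hj hk h

/-- the sign -/
noncomputable def sg (c : ℝ) : ℝ := if 0 ≤ c then 1 else -1

theorem sg_mul (c : ℝ) : |c| * sg c = c := by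
  unfold sg
  split_ifs with h
  · rw [abs_of_nonneg h, mul_one]
  · rw [abs_of_neg (not_le.1 h)]; ring

theorem sg_abs (c : ℝ) : |sg c| ≤ 1 := by
  unfold sg
  split_ifs <;> simp

/-- the measure -/
noncomputable def nuN (N : ℕ) (c : ℕ → ℝ) : Measure ℂ :=
  ∑ k ∈ Finset.range N, ENNReal.ofReal |c k| • Measure.dirac (nd N k)

/-- the weight -/
noncomputable def wN (N : ℕ) (c : ℕ → ℝ) (ζ : ℂ) : ℂ :=
  ∑ k ∈ Finset.range N, if ζ = nd N k then ((sg (c k) : ℝ) : ℂ) else 0

theorem nuN_univ (N : ℕ) (c : ℕ → ℝ) : nuN N c univ = ENNReal.ofReal (∑ k ∈ Finset.range N, |c k|) := by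
  unfold nuN
  rw [ENNReal.ofReal_sum_of_nonneg (fun i _ => abs_nonneg _)]
  simp only [Measure.coe_finsetSum, Finset.sum_apply, Measure.smul_apply, smul_eq_mul,
    measure_univ, mul_one]

theorem nuN_fin (N : ℕ) (c : ℕ → ℝ) : IsFiniteMeasure (nuN N c) :=
  ⟨by rw [nuN_univ]; exact ENNReal.ofReal_lt_top⟩

theorem nuN_real (N : ℕ) (c : ℕ → ℝ) : (nuN N c).real univ = ∑ k ∈ Finset.range N, |c k| := by
  unfold Measure.real
  rw [nuN_univ, ENNReal.toReal_ofReal (Finset.sum_nonneg fun i _ => abs_nonneg _)]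

theorem nuN_ae (N : ℕ) (c : ℕ → ℝ) : ∀ᵐ ζ ∂(nuN N c), ‖ζ‖ = 1 := by
  rw [ae_iff]
  unfold nuN
  simp only [Measure.coe_finsetSum, Finset.sum_apply, Measure.smul_apply, smul_eq_mul]
  apply Finset.sum_eq_zero
  intro k _
  have hm : MeasurableSet {a : ℂ | ¬ ‖a‖ = 1} := (measurableSet_eq_fun (by fun_prop) (by fun_prop)).compl
  rw [Measure.dirac_apply' _ hm, indicator_of_notMem, mul_zero]
  intro h
  exact h (nd_norm N k)

theorem wN_meas (N : ℕ) (c : ℕ → ℝ) : Measurable (wN N c) := by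
  unfold wN
  apply Finset.measurable_sum
  intro k _
  exact Measurable.ite (measurableSet_singleton _) measurable_const measurable_const

theorem wN_nd {N : ℕ} (c : ℕ → ℝ) {k : ℕ} (hk : k < N) : wN N c (nd N k) = ((sg (c k) : ℝ) : ℂ) := by
  unfold wN
  rw [Finset.sum_eq_single k]
  · rw [if_pos rfl]
  · intro j hj hjk
    rw [if_neg]
    intro h
    exact hjk (nd_inj hk (Finset.mem_range.1 hj) h).symm
  · intro h
    exact absurd (Finset.mem_range.2 hk) h

theorem wN_le {N : ℕ} (c : ℕ → ℝ) (ζ : ℂ) : ‖wN N c ζ‖ ≤ 1 := by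
  by_cases h : ∃ k < N, ζ = nd N k
  · obtain ⟨k, hk, rfl⟩ := h
    rw [wN_nd c hk, Complex.norm_real, Real.norm_eq_abs]
    exact sg_abs _
  · push Not at h
    have : wN N c ζ = 0 := by
      unfold wN
      apply Finset.sum_eq_zero
      intro k hk
      rw [if_neg (h k (Finset.mem_range.1 hk))]
    rw [this, norm_zero]
    exact zero_le_one

theorem pot_nuN (N : ℕ) (c : ℕ → ℝ) (v : ℂ) :
    pot (nuN N c) (wN N c) v = ∑ k ∈ Finset.range N, (c k : ℂ) * Complex.log (1 - nd N k * v) := by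
  unfold pot nuN
  rw [integral_finsetSum_measure]
  · apply Finset.sum_congr rfl
    intro k hk
    rw [integral_smul_measure, integral_dirac, wN_nd c (Finset.mem_range.1 hk),
      ENNReal.toReal_ofReal (abs_nonneg _), Complex.real_smul, ← mul_assoc, ← Complex.ofReal_mul, sg_mul]
  · intro k _
    exact (integrable_dirac enorm_lt_top).smul_measure ENNReal.ofReal_ne_top

theorem pot_nuN_im (N : ℕ) (c : ℕ → ℝ) (v : ℂ) :
    (pot (nuN N c) (wN N c) v).im = ∑ k ∈ Finset.range N, c k * ak v (tk N k) := by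
  rw [pot_nuN, Complex.im_sum]
  apply Finset.sum_congr rfl
  intro k _
  rw [Complex.im_ofReal_mul]
  rfl

theorem tk_mem {N k : ℕ} (hN : 0 < N) (hk : k ≤ N) : tk N k ∈ Icc (0 : ℝ) (2 * Real.pi) :=
  ⟨by rw [← tk_zero N]; exact tk_mono (Nat.zero_le k), by rw [← tk_N hN]; exact tk_mono hk⟩

/-- the increments of a function of bounded variation -/
theorem incr {S : ℝ → ℝ} {V : ℝ} (hV0 : 0 ≤ V)
    (hV : eVariationOn S (Icc 0 (2 * Real.pi)) ≤ ENNReal.ofReal V) {N : ℕ} (hN : 0 < N) :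
    ∑ k ∈ Finset.range N, |((if k = 0 then S (tk N (N - 1)) else S (tk N (k - 1))) - S (tk N k)) / Real.pi| ≤
      2 * V / Real.pi := by
  have hpi := Real.pi_pos
  obtain ⟨n, rfl⟩ : ∃ n, N = n + 1 := ⟨N - 1, by omega⟩
  have h1 : ∑ k ∈ Finset.range n, |S (tk (n + 1) (k + 1)) - S (tk (n + 1) k)| ≤ V := by
    have h2 := (eVariationOn.sum_le_of_monotoneOn_Iic (f := S) (s := Icc 0 (2 * Real.pi)) (n := n)
      (u := fun k => tk (n + 1) k) (fun a _ b _ hab => tk_mono hab)
      (fun i hi => tk_mem (Nat.succ_pos n) (by omega))).trans hV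
    have h3 : ∑ k ∈ Finset.range n, edist (S (tk (n + 1) (k + 1))) (S (tk (n + 1) k)) =
        ENNReal.ofReal (∑ k ∈ Finset.range n, |S (tk (n + 1) (k + 1)) - S (tk (n + 1) k)|) := by
      rw [ENNReal.ofReal_sum_of_nonneg (fun i _ => abs_nonneg _)]
      apply Finset.sum_congr rfl
      intro k _
      rw [edist_dist, Real.dist_eq]
    rw [h3, ENNReal.ofReal_le_ofReal_iff hV0] at h2
    exact h2
  have h4 : |S (tk (n + 1) n) - S (tk (n + 1) 0)| ≤ V := by
    have h5 := (eVariationOn.edist_le S (tk_mem (N := n + 1) (k := n) (Nat.succ_pos n) (by omega))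
      (tk_mem (N := n + 1) (k := 0) (Nat.succ_pos n) (by omega))).trans hV
    rw [edist_dist, Real.dist_eq, ENNReal.ofReal_le_ofReal_iff hV0] at h5
    exact h5
  simp only [abs_div, abs_of_pos hpi]
  rw [← Finset.sum_div]
  apply div_le_div_of_nonneg_right _ hpi.le
  rw [Finset.sum_range_succ']
  simp only [Nat.add_eq_zero_iff, one_ne_zero, and_false, if_false, if_true, Nat.add_sub_cancel]
  have h6 : ∑ k ∈ Finset.range n, |S (tk (n + 1) k) - S (tk (n + 1) (k + 1))| ≤ V := by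
    refine le_trans (le_of_eq ?_) h1
    apply Finset.sum_congr rfl
    intro k _
    rw [abs_sub_comm]
  linarith

/-- **From the boundary to a potential.** -/
theorem cls_of_bv {H : ℂ → ℂ} (hHd : DifferentiableOn ℂ H (ball 0 1))
    (hG : ∀ v ∈ ball (0 : ℂ) 1, ‖H v‖ ≤ -Real.log (1 - ‖v‖ ^ 2)) {s : ℝ} (hs0 : 0 < s) (hs1 : s < 1)
    {u : ℂ} (hu : ‖u‖ = 1) {S : ℝ → ℝ} {V β β' : ℝ} (hV0 : 0 ≤ V)
    (hV : eVariationOn S (Icc 0 (2 * Real.pi)) ≤ ENNReal.ofReal V)
    (hB : ∀ t ∈ Icc (0:ℝ) (2 * Real.pi), |(u * H (circleMap 0 s t)).im - S t| ≤ β * (Real.pi / 2))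
    (hββ : β < β') : Cls (2 * V / Real.pi) β' (fun v => H (s * v)) := by
  have hpi := Real.pi_pos
  have hsc : ‖(s : ℂ)‖ = s := by rw [Complex.norm_real, Real.norm_of_nonneg hs0.le]
  have hmaps : MapsTo (fun v : ℂ => (s : ℂ) * v) (ball 0 (1 / s)) (ball 0 1) := by
    intro v hv
    rw [mem_ball_zero_iff, lt_div_iff₀ hs0] at hv
    rw [mem_ball_zero_iff, norm_mul, hsc, mul_comm]
    exact hv
  have hs1' : 1 < 1 / s := by rwa [lt_div_iff₀ hs0, one_mul]
  have hd : DifferentiableOn ℂ (fun v => H (s * v)) (ball 0 (1 / s)) :=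
    hHd.comp (differentiableOn_id.const_mul _) hmaps
  have hsub : closedBall (0 : ℂ) 1 ⊆ ball 0 (1 / s) := closedBall_subset_ball hs1'
  have hF : DiffContOnCl ℂ (fun v => u * H (s * v)) (ball 0 1) :=
    (hd.const_mul u).diffContOnCl_ball hsub
  have hcm : ∀ t : ℝ, (s : ℂ) * circleMap 0 1 t = circleMap 0 s t := by
    intro t
    simp [circleMap]
  set P : ℝ → ℝ := fun t => (u * H (circleMap 0 s t)).im with hP
  have hPc : Continuous P := by
    apply Complex.continuous_im.comp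
    apply continuous_const.mul
    rw [← continuousOn_univ]
    apply hHd.continuousOn.comp (continuous_circleMap 0 s).continuousOn
    intro t _
    rw [mem_ball_zero_iff, norm_circleMap_zero, abs_of_pos hs0]
    exact hs1
  have hε : 0 < (β' - β) * (Real.pi / 2) := mul_pos (by linarith) (by linarith)
  obtain ⟨δ, hδ0, hδ⟩ := Metric.uniformContinuousOn_iff_le.1
    (isCompact_Icc.uniformContinuousOn_of_continuous hPc.continuousOn :
      UniformContinuousOn P (Icc (0:ℝ) (2 * Real.pi))) _ hε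
  obtain ⟨N, hN⟩ : ∃ N : ℕ, 0 < N ∧ 2 * Real.pi / N ≤ δ := by
    obtain ⟨n, hn⟩ := exists_nat_gt (2 * Real.pi / δ)
    have hn0 : 0 < (n : ℝ) := lt_trans (by positivity) hn
    refine ⟨n, by exact_mod_cast hn0, ?_⟩
    rw [div_lt_iff₀ hδ0] at hn
    rw [div_le_iff₀ hn0]
    linarith
  obtain ⟨hN0, hN1⟩ := hN
  have hN0' : (0 : ℝ) < N := by exact_mod_cast hN0
  have hstep : ∀ k < N, ∀ t ∈ Icc (tk N k) (tk N (k + 1)),
      |((fun v => u * H (s * v)) (circleMap 0 1 t)).im - S (tk N k)| ≤ β' * (Real.pi / 2) := by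
    intro k hk t ht
    have h1 : ((fun v => u * H (s * v)) (circleMap 0 1 t)).im = P t := by
      simp only [hP, hcm]
    rw [h1]
    have m1 := tk_mem hN0 hk.le
    have m2 := tk_mem hN0 (Nat.succ_le_of_lt hk)
    have m3 : t ∈ Icc (0 : ℝ) (2 * Real.pi) := ⟨m1.1.trans ht.1, ht.2.trans m2.2⟩
    have h2 : dist t (tk N k) ≤ δ := by
      rw [Real.dist_eq, abs_of_nonneg (by linarith [ht.1])]
      refine le_trans ?_ hN1
      have h3 : tk N (k + 1) - tk N k = 2 * Real.pi / N := by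
        unfold tk
        push_cast
        field_simp
        ring
      linarith [ht.2]
    have h4 := hδ t m3 (tk N k) m1 h2
    rw [Real.dist_eq] at h4
    have h5 := hB (tk N k) m1
    have h6 : |P t - S (tk N k)| ≤ |P t - P (tk N k)| + |P (tk N k) - S (tk N k)| := by
      have := abs_add_le (P t - P (tk N k)) (P (tk N k) - S (tk N k))
      simpa using this
    have h7 : |P (tk N k) - S (tk N k)| ≤ β * (Real.pi / 2) := h5
    linarith
  set c : ℕ → ℝ := fun k => ((if k = 0 then S (tk N (N - 1)) else S (tk N (k - 1))) - S (tk N k)) / Real.pi with hc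
  refine ⟨hd.mono (ball_subset_closedBall.trans hsub), fun v hv => ?_, nuN N c, fun ζ => u⁻¹ * wN N c ζ, u,
    1 / (2 * Real.pi) * ∑ k ∈ Finset.range N, S (tk N k) * (tk N (k + 1) - tk N k), nuN_fin N c, nuN_ae N c, ?_,
    (wN_meas N c).const_mul _, fun ζ => ?_, hu, fun v hv => ?_⟩
  · rw [mem_ball_zero_iff] at hv
    have hvs : ‖(s : ℂ) * v‖ ≤ ‖v‖ := by
      rw [norm_mul, hsc]
      exact mul_le_of_le_one_left (norm_nonneg v) hs1.le
    refine (hG _ (by rw [mem_ball_zero_iff]; linarith)).trans ?_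
    have h1 : 0 < 1 - ‖v‖ ^ 2 := by nlinarith [norm_nonneg v]
    have h2 : 1 - ‖v‖ ^ 2 ≤ 1 - ‖(s : ℂ) * v‖ ^ 2 := by
      have := pow_le_pow_left₀ (norm_nonneg _) hvs 2
      linarith
    linarith [Real.log_le_log h1 h2]
  · rw [nuN_real]
    exact incr hV0 hV hN0
  · rw [norm_mul, norm_inv, hu, inv_one, one_mul]
    exact wN_le c ζ
  · rw [mem_ball_zero_iff] at hv
    have hu0 : u ≠ 0 := by
      rintro rfl
      simp at hu
    rw [pot_const]
    have h1 := step_bound hF hN0 (S := fun k => S (tk N k)) hstep hv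
    have h2 : (u * (H (s * v) - u⁻¹ * pot (nuN N c) (wN N c) v)).im =
        (u * H (s * v)).im - (pot (nuN N c) (wN N c) v).im := by
      rw [← Complex.sub_im]
      congr 1
      field_simp
    rw [h2, pot_nuN_im]
    have h3 := abel hN0 (fun k => S (tk N k)) (fun k => ak v (tk N k)) (by
      rw [tk_N hN0, ak_two_pi, tk_zero])
    have h4 : 1 / (2 * Real.pi) * ∑ k ∈ Finset.range N, S (tk N k) * ((tk N (k + 1) + 2 * ak v (tk N (k + 1))) -
        (tk N k + 2 * ak v (tk N k))) =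
        1 / (2 * Real.pi) * ∑ k ∈ Finset.range N, S (tk N k) * (tk N (k + 1) - tk N k) +
        ∑ k ∈ Finset.range N, c k * ak v (tk N k) := by
      have h5 : ∑ k ∈ Finset.range N, S (tk N k) * ((tk N (k + 1) + 2 * ak v (tk N (k + 1))) -
        (tk N k + 2 * ak v (tk N k))) = ∑ k ∈ Finset.range N, S (tk N k) * (tk N (k + 1) - tk N k) +
        2 * ∑ k ∈ Finset.range N, S (tk N k) * (ak v (tk N (k + 1)) - ak v (tk N k)) := by
        rw [Finset.mul_sum, ← Finset.sum_add_distrib]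
        apply Finset.sum_congr rfl
        intro k _
        ring
      have h6 : ∑ k ∈ Finset.range N, c k * ak v (tk N k) = 1 / Real.pi *
          ∑ k ∈ Finset.range N, ((if k = 0 then S (tk N (N - 1)) else S (tk N (k - 1))) - S (tk N k)) *
            ak v (tk N k) := by
        rw [Finset.mul_sum]
        apply Finset.sum_congr rfl
        intro k _
        simp only [hc]
        ring
      rw [h5, h6, ← h3]
      field_simp
    rw [h4] at h1
    rw [sub_right_comm]
    have h7 : (u * H (s * v)).im - 1 / (2 * Real.pi) * ∑ k ∈ Finset.range N, S (tk N k) * (tk N (k + 1) - tk N k) -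
        ∑ k ∈ Finset.range N, c k * ak v (tk N k) = (u * H (s * v)).im -
        (1 / (2 * Real.pi) * ∑ k ∈ Finset.range N, S (tk N k) * (tk N (k + 1) - tk N k) +
        ∑ k ∈ Finset.range N, c k * ak v (tk N k)) := by ring
    rw [h7]
    exact h1

end Pool.Agent.H46KC
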