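import Mathlib
import Pool.Agent.H46KC.Atoms

/-!
# The three classes
-/

set_option autoImplicit false

open Complex Metric Set Filter Topology MeasureTheory

namespace Pool.Agent.H46KC

open Pool.Agent.TH325.SI (mn em la)
open Pool.Agent.Z55M (sphere_sub cint av_mulr directions)

theorem avg_scale (f : ℂ → ℝ) (s r : ℝ) :
    Real.circleAverage (fun v => f (s * v)) 0 r = Real.circleAverage f 0 (s * r) := by
  unfold Real.circleAverage
  congr 1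
  apply intervalIntegral.integral_congr
  intro θ _
  simp only [circleMap, zero_add]
  congr 1
  push_cast
  ring

/-- all the dilations near the identity are near potentials -/
def Adm (M β : ℝ) (H : ℂ → ℂ) : Prop :=
  DifferentiableOn ℂ H (ball 0 1) ∧ (∀ v ∈ ball (0 : ℂ) 1, ‖H v‖ ≤ -Real.log (1 - ‖v‖ ^ 2)) ∧
  ∀ r : ℝ, 0 < r → r < 1 → ∃ s : ℝ, r < s ∧ Cls M β (fun v => H (s * v))

theorem mean_adm {β M : ℝ} {τ : ℂ} (hβ : 0 ≤ β) (hM : 0 ≤ M) (hτ : ‖τ‖ < 1) (hτβ : ‖τ‖ * β < 1) :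
    ∃ C : ℝ, ∀ H : ℂ → ℂ, Adm M β H → ∀ r : ℝ, 0 < r → r < 1 →
      Real.circleAverage (fun v => ‖Complex.exp (τ * H v)‖) 0 r ≤ C := by
  obtain ⟨C, hC⟩ := mean_cls hβ hM (norm_nonneg τ) hτ hτβ
  refine ⟨C, fun H hH r hr0 hr1 => ?_⟩
  obtain ⟨s, hrs, hs⟩ := hH.2.2 r hr0 hr1
  have hs0 : 0 < s := hr0.trans hrs
  have h1 := hC τ rfl _ hs (r / s) (by positivity) (by rwa [div_lt_one hs0])
  rw [avg_scale (fun v => ‖Complex.exp (τ * H v)‖) s (r / s), mul_div_cancel₀ _ hs0.ne'] at h1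
  exact h1

theorem em_adm {β M a : ℝ} (hβ : 0 ≤ β) (hM : 0 ≤ M) (ha0 : 0 < a) (ha1 : a < 1) (haβ : a * β < 1) :
    ∃ C : ℝ, ∀ H : ℂ → ℂ, Adm M β H → ∀ r : ℝ, 0 < r → r < 1 → em H (a / la r) r ≤ C := by
  obtain ⟨T, hT1, hT2⟩ := em_dir ha0 ha1 haβ
  have h1 : ∀ τ ∈ T, ∃ C : ℝ, ∀ H : ℂ → ℂ, Adm M β H → ∀ r : ℝ, 0 < r → r < 1 →
      Real.circleAverage (fun v => ‖Complex.exp (τ * H v)‖) 0 r ≤ C :=
    fun τ hτ => mean_adm hβ hM (hT1 τ hτ).1 (hT1 τ hτ).2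
  choose! Cf hCf using h1
  exact ⟨∑ τ ∈ T, Cf τ, fun H hH r hr0 hr1 => (hT2 H hH.1 hH.2.1 r hr0 hr1).trans
    (Finset.sum_le_sum fun τ hτ => hCf τ hτ H hH r hr0 hr1)⟩

theorem Cls.mono {M M' β β' : ℝ} {H : ℂ → ℂ} (h : Cls M β H) (hM : M ≤ M') (hβ : β ≤ β') : Cls M' β' H := by
  obtain ⟨h1, h2, ν, w, u, γ, h3, h4, h5, h6, h7, h8, h9⟩ := h
  refine ⟨h1, h2, ν, w, u, γ, h3, h4, h5.trans hM, h6, h7, h8, fun v hv => (h9 v hv).trans ?_⟩
  have := Real.pi_pos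
  gcongr

/-- the point `r e^{iθ}` -/
noncomputable def circ (r θ : ℝ) : ℂ := (r : ℂ) * Complex.exp ((θ : ℂ) * Complex.I)

theorem circ_per (r θ : ℝ) : circ r (θ + 2 * Real.pi) = circ r θ :=
  Pool.Agent.TH325.SI.ep_per r θ

open Pool.Agent.W677.Mar (hat hat_ne hat_zero)

/-! ### potentials -/

theorem cls_pot {h : ℂ → ℂ} (hHd : DifferentiableOn ℂ (hat h 0) (ball 0 1))
    (hG : ∀ v ∈ ball (0 : ℂ) 1, ‖hat h 0 v‖ ≤ -Real.log (1 - ‖v‖ ^ 2)) {ρ : ℝ} (hρ : 1 ≤ ρ) {M β : ℝ}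
    {μ : Measure ℂ} {w : ℂ → ℂ} {u : ℂ} {γ : ℝ} (hμ : IsFiniteMeasure μ) (hμM : μ.real univ ≤ M) (hw : Measurable w)
    (hw1 : ∀ ζ, ‖w ζ‖ ≤ 1) (hu : ‖u‖ = 1)
    (hcl : ∀ z : ℂ, ρ < ‖z‖ → |(u * (h z - ∫ ζ in sphere (0 : ℂ) ρ, w ζ * Complex.log (1 - ζ / z) ∂μ)).im - γ| ≤
      β * (Real.pi / 2)) : Cls M β (fun v => hat h 0 ((ρ⁻¹ : ℝ) * v)) := by
  have hρ0 : 0 < ρ := by linarith
  have hs0 : 0 < ρ⁻¹ := by positivity
  have hs1 : ρ⁻¹ ≤ 1 := inv_le_one_of_one_le₀ hρ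
  have hsc : ‖((ρ⁻¹ : ℝ) : ℂ)‖ = ρ⁻¹ := by rw [Complex.norm_real, Real.norm_of_nonneg hs0.le]
  have hvs : ∀ v : ℂ, ‖((ρ⁻¹ : ℝ) : ℂ) * v‖ ≤ ‖v‖ := by
    intro v
    rw [norm_mul, hsc]
    exact mul_le_of_le_one_left (norm_nonneg v) hs1
  have hmaps : MapsTo (fun v : ℂ => ((ρ⁻¹ : ℝ) : ℂ) * v) (ball 0 1) (ball 0 1) := by
    intro v hv
    rw [mem_ball_zero_iff] at hv ⊢
    exact (hvs v).trans_lt hv
  have hd : DifferentiableOn ℂ (fun v => hat h 0 ((ρ⁻¹ : ℝ) * v)) (ball 0 1) :=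
    hHd.comp (differentiableOn_id.const_mul _) hmaps
  set g : ℂ → ℂ := fun ζ => ((ρ⁻¹ : ℝ) : ℂ) * ζ with hg
  have hgm : Measurable g := measurable_id.const_mul _
  set ν : Measure ℂ := (μ.restrict (sphere (0 : ℂ) ρ)).map g with hν
  have hνfin : IsFiniteMeasure ν := by
    rw [hν]
    infer_instance
  have hνae : ∀ᵐ ζ ∂ν, ‖ζ‖ = 1 := by
    rw [hν, ae_map_iff hgm.aemeasurable (measurableSet_eq_fun (by fun_prop) (by fun_prop))]
    filter_upwards [ae_restrict_mem (isClosed_sphere.measurableSet)] with ζ hζ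
    rw [mem_sphere_zero_iff_norm] at hζ
    simp only [hg]
    rw [norm_mul, hsc, hζ, inv_mul_cancel₀ hρ0.ne']
  have hw' : Measurable (fun ζ : ℂ => w ((ρ : ℂ) * ζ)) := hw.comp (measurable_id.const_mul _)
  have hpot : ∀ v : ℂ, pot ν (fun ζ => w ((ρ : ℂ) * ζ)) v =
      ∫ ζ in sphere (0 : ℂ) ρ, w ζ * Complex.log (1 - ζ * (((ρ⁻¹ : ℝ) : ℂ) * v)) ∂μ := by
    intro v
    unfold pot
    rw [hν, integral_map hgm.aemeasurable]
    · apply integral_congr_ae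
      refine Filter.Eventually.of_forall fun ζ => ?_
      simp only [hg]
      congr 2
      · have hρc : (ρ : ℂ) ≠ 0 := by exact_mod_cast hρ0.ne'
        push_cast
        field_simp
      · congr 1
        ring
    · exact (hw'.mul (Complex.measurable_log.comp (measurable_const.sub (measurable_id.mul_const _)))).aestronglyMeasurable
  refine ⟨hd, fun v hv => ?_, ν, fun ζ => w ((ρ : ℂ) * ζ), u, γ, hνfin, hνae, ?_, hw', fun ζ => hw1 _, hu, ?_⟩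
  · have hv1 := hv
    rw [mem_ball_zero_iff] at hv
    refine (hG _ (hmaps hv1)).trans ?_
    have h1 : 0 < 1 - ‖v‖ ^ 2 := by nlinarith [norm_nonneg v]
    have h2 : 1 - ‖v‖ ^ 2 ≤ 1 - ‖((ρ⁻¹ : ℝ) : ℂ) * v‖ ^ 2 := by
      have := pow_le_pow_left₀ (norm_nonneg _) (hvs v) 2
      linarith
    linarith [Real.log_le_log h1 h2]
  · refine le_trans ?_ hμM
    unfold Measure.real
    rw [hν, Measure.map_apply hgm MeasurableSet.univ, preimage_univ, Measure.restrict_apply_univ]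
    exact ENNReal.toReal_mono (measure_ne_top μ univ) (measure_mono (subset_univ _))
  · -- punctured disc
    have hne : ∀ v ∈ ball (0 : ℂ) 1, v ≠ 0 →
        |(u * (hat h 0 (((ρ⁻¹ : ℝ) : ℂ) * v) - pot ν (fun ζ => w ((ρ : ℂ) * ζ)) v)).im - γ| ≤ β * (Real.pi / 2) := by
      intro v hv hv0
      rw [mem_ball_zero_iff] at hv
      have hvn : 0 < ‖v‖ := norm_pos_iff.2 hv0
      have hrv : ((ρ⁻¹ : ℝ) : ℂ) * v ≠ 0 := mul_ne_zero (by exact_mod_cast hs0.ne') hv0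
      have h1 := hcl ((((ρ⁻¹ : ℝ) : ℂ) * v)⁻¹) (by
        rw [norm_inv, norm_mul, hsc, mul_inv, inv_inv]
        have : 1 < ‖v‖⁻¹ := (one_lt_inv₀ hvn).2 hv
        nlinarith)
      rw [hpot, hat_ne h 0 hrv]
      simp only [div_inv_eq_mul] at h1
      exact h1
    intro v hv
    by_cases hv0 : v = 0
    · subst hv0
      have hpd : DifferentiableOn ℂ (pot ν (fun ζ => w ((ρ : ℂ) * ζ))) (ball 0 1) :=
        pot_diff hνae hw' (B := 1) (fun ζ => hw1 _)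
      have hc : ContinuousAt (fun v => |(u * (hat h 0 (((ρ⁻¹ : ℝ) : ℂ) * v) -
          pot ν (fun ζ => w ((ρ : ℂ) * ζ)) v)).im - γ|) 0 := by
        have hb : ball (0 : ℂ) 1 ∈ 𝓝 (0 : ℂ) := isOpen_ball.mem_nhds hv
        have c1 : ContinuousAt (fun v => hat h 0 (((ρ⁻¹ : ℝ) : ℂ) * v)) 0 := hd.continuousOn.continuousAt hb
        have c2 := hpd.continuousOn.continuousAt hb
        exact ((Complex.continuous_im.continuousAt.comp (continuousAt_const.mul (c1.sub c2))).sub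
          continuousAt_const).abs
      have h1 := (hc.tendsto.mono_left (nhdsWithin_le_nhds : 𝓝[≠] (0 : ℂ) ≤ 𝓝 0))
      apply le_of_tendsto h1
      have hb : ball (0 : ℂ) 1 ∈ 𝓝[≠] (0 : ℂ) := mem_nhdsWithin_of_mem_nhds (isOpen_ball.mem_nhds hv)
      filter_upwards [hb, self_mem_nhdsWithin] with x hx hx0
      exact hne x hx hx0
    · exact hne v hv hv0

/-! ### functions of bounded variation -/

theorem cls_bv {h : ℂ → ℂ} (hHd : DifferentiableOn ℂ (hat h 0) (ball 0 1))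
    (hG : ∀ v ∈ ball (0 : ℂ) 1, ‖hat h 0 v‖ ≤ -Real.log (1 - ‖v‖ ^ 2)) {ρ : ℝ} (hρ : 1 < ρ) {V β β' : ℝ}
    (hV0 : 0 ≤ V) {u : ℂ} (hu : ‖u‖ = 1) {S : ℝ → ℝ} (hV : eVariationOn S (Icc 0 (2 * Real.pi)) ≤ ENNReal.ofReal V)
    (hB : ∀ t ∈ Icc (0:ℝ) (2 * Real.pi), |(u * h (circ ρ t)).im - S t| ≤ β * (Real.pi / 2))
    (hββ : β < β') : Cls (2 * V / Real.pi) β' (fun v => hat h 0 ((ρ⁻¹ : ℝ) * v)) := by
  have hpi := Real.pi_pos
  have hρ0 : 0 < ρ := by linarith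
  have hs0 : 0 < ρ⁻¹ := by positivity
  have hs1 : ρ⁻¹ < 1 := inv_lt_one_of_one_lt₀ hρ
  have hmap : MapsTo (fun t => 2 * Real.pi - t) (Icc 0 (2 * Real.pi)) (Icc (0:ℝ) (2 * Real.pi)) := by
    intro t ht
    exact ⟨by linarith [ht.2], by linarith [ht.1]⟩
  apply cls_of_bv hHd hG hs0 hs1 hu (S := S ∘ fun t => 2 * Real.pi - t) hV0 _ _ hββ
  · exact (eVariationOn.comp_le_of_antitoneOn S (fun t => 2 * Real.pi - t) (fun x _ y _ hxy => by
      show 2 * Real.pi - y ≤ 2 * Real.pi - x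
      linarith) hmap).trans hV
  · intro t ht
    have h1 := hB _ (hmap ht)
    have h2 : hat h 0 (circleMap 0 ρ⁻¹ t) = h (circ ρ (2 * Real.pi - t)) := by
      rw [Pool.Agent.TH325.SI.hat_cm hs0, inv_inv]
      have h3 := circ_per ρ (-t)
      rw [show -t + 2 * Real.pi = 2 * Real.pi - t by ring] at h3
      rw [h3]
      rfl
    rw [h2]
    exact h1

/-! ### Kaplan's condition -/

theorem ev_sub {A : ℝ → ℝ} (hA : Monotone A) {a b V : ℝ} (h : A b - A a + (b - a) ≤ V) :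
    eVariationOn (fun t => A t - t) (Icc a b) ≤ ENNReal.ofReal V := by
  unfold eVariationOn
  apply iSup_le
  rintro ⟨n, u, hu, us⟩
  have h1 : ∀ i ∈ Finset.range n, edist (A (u (i + 1)) - u (i + 1)) (A (u i) - u i) ≤
      ENNReal.ofReal ((A (u (i + 1)) + u (i + 1)) - (A (u i) + u i)) := by
    intro i _
    rw [edist_dist, Real.dist_eq]
    apply ENNReal.ofReal_le_ofReal
    have h2 := hu (Nat.le_succ i)
    have h3 := hA h2
    rw [abs_le]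
    constructor <;> linarith
  refine (Finset.sum_le_sum h1).trans ?_
  rw [← ENNReal.ofReal_sum_of_nonneg, Finset.sum_range_sub (fun i => A (u i) + u i)]
  · apply ENNReal.ofReal_le_ofReal
    have h2 := us n
    have h3 := us 0
    have h4 := hA h2.2
    have h5 := hA h3.1
    linarith [h2.2, h3.1]
  · intro i _
    have h2 := hu (Nat.le_succ i)
    have h3 := hA h2
    linarith

theorem kaplan_bv {P : ℝ → ℝ} {β : ℝ} (hP : ∀ x y : ℝ, x ≤ y → -(β * Real.pi) ≤ P y - P x)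
    (hper : P (2 * Real.pi) = P 0 + 2 * Real.pi) :
    ∃ S : ℝ → ℝ, eVariationOn S (Icc 0 (2 * Real.pi)) ≤ ENNReal.ofReal ((4 + β) * Real.pi) ∧
      ∀ t, |(P t - t) - S t| ≤ β * (Real.pi / 2) := by
  have hpi := Real.pi_pos
  set A : ℝ → ℝ := fun t => sSup (P '' Iic t) - β * (Real.pi / 2) with hA
  have hbdd : ∀ t, BddAbove (P '' Iic t) := by
    intro t
    refine ⟨P t + β * Real.pi, ?_⟩
    rintro _ ⟨x, hx, rfl⟩
    linarith [hP x t hx]
  have hne : ∀ t, (P '' Iic t).Nonempty := fun t => ⟨P t, t, self_mem_Iic, rfl⟩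
  have hlow : ∀ t, P t - β * (Real.pi / 2) ≤ A t := by
    intro t
    have := le_csSup (hbdd t) ⟨t, self_mem_Iic, rfl⟩
    simp only [hA]
    linarith
  have hup : ∀ t, A t ≤ P t + β * (Real.pi / 2) := by
    intro t
    have : sSup (P '' Iic t) ≤ P t + β * Real.pi := by
      apply csSup_le (hne t)
      rintro _ ⟨x, hx, rfl⟩
      linarith [hP x t hx]
    simp only [hA]
    linarith
  have hmono : Monotone A := by
    intro x y hxy
    simp only [hA]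
    have := csSup_le_csSup (hbdd y) (hne x) (image_mono (Iic_subset_Iic.2 hxy))
    linarith
  refine ⟨fun t => A t - t, ev_sub hmono ?_, fun t => ?_⟩
  · have h1 := hup (2 * Real.pi)
    have h2 := hlow 0
    rw [hper] at h1
    linarith
  · have h1 := hlow t
    have h2 := hup t
    rw [abs_le]
    constructor <;> linarith

end Pool.Agent.H46KC
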